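import Mathlib
import Pool.Agent.Helper51.VN.Fun

/-!
# Chains

Project VN: Voisin's conjecture for all elliptic surfaces over the projective line with a section.
A chain is a list of edges, the head of the list is the outermost edge. An edge has a label `i`
(a factor of the product of elliptic curves), the invariant `b`, a square root `κ` of `a ^ 3` and a
coordinate `z` (of the covering `v ^ 6 = z + b + D / (4 z)`, `D = b ^ 2 - κ ^ 2 = 4 σ β`).
Everything in this file is for an arbitrary field `F`; it is used for `k` and for function fields.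
-/

namespace Pool.Agent.Helper83.VN

open Polynomial

universe u

/-- An edge of a chain. -/
@[ext] structure Ed (ι F : Type*) where
  /-- the label -/
  i : ι
  /-- the invariant `b` of the curve `y ^ 2 = x ^ 3 - 3 a x - 2 b` -/
  b : F
  /-- a square root of `a ^ 3` -/
  κ : F
  /-- the coordinate -/
  z : F

/-- The four-vector. -/
@[ext] structure V4 (F : Type*) [Semiring F] where
  U : F[X]
  U' : F[X]
  Q : F[X]
  R : F[X]

section defs

variable {ι F : Type*} [Field F]

/-- `σ = (b + κ) / 2`. -/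
def Ed.s (e : Ed ι F) : F := (e.b + e.κ) / 2

/-- `β = (b - κ) / 2`. -/
def Ed.t (e : Ed ι F) : F := (e.b - e.κ) / 2

/-- `Υ (z) = z + b + D / (4 z) = (z + σ) (z + β) / z`. -/
def Ed.ups (e : Ed ι F) : F := (e.z + e.s) * (e.z + e.t) / e.z

/-- The spectral value `4 b ^ 2 / D = b ^ 2 / (σ β)`. -/
def Ed.w (e : Ed ι F) : F := e.b ^ 2 / (e.s * e.t)

/-- The label, `b` and `κ` of an edge. -/
def Ed.lab (e : Ed ι F) : ι × F × F := (e.i, e.b, e.κ)

/-- The action of an edge on four-vectors. -/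
noncomputable def act (e : Ed ι F) (V : V4 F) : V4 F where
  U := C ((e.z + e.s) / (e.z + e.t)) * (C e.z * V.U + C (e.t ^ 2 / e.z) * V.U' +
    C e.t * (V.Q + (X - 4) * V.R))
  U' := C ((e.z + e.t) / (e.z + e.s)) * (C e.z * V.U + C (e.s ^ 2 / e.z) * V.U' +
    C e.s * (V.Q - (X - 4) * V.R))
  Q := C e.b * V.Q + C 2⁻¹ * X * (C e.z * V.U + C (e.s * e.t / e.z) * V.U')
  R := C e.κ * V.R + C 2⁻¹ * (C e.z * V.U - C (e.s * e.t / e.z) * V.U')

/-- The four-vector of a chain. -/
noncomputable def vec : List (Ed ι F) → V4 F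
  | [] => ⟨0, 0, 1, 0⟩
  | e :: c => act e (vec c)

/-- The quadratic form `Q ^ 2 - w U U' - w (w - 4) R ^ 2`. -/
noncomputable def V4.form (V : V4 F) : F[X] :=
  V.Q ^ 2 - X * V.U * V.U' - X * (X - 4) * V.R ^ 2

/-- `N = Q (4) - U' (4) - U (4)`. -/
noncomputable def V4.N (V : V4 F) : F := V.Q.eval 4 - V.U'.eval 4 - V.U.eval 4

/-- The coordinate `z` of the total point: `- U' (4)`. -/
noncomputable def V4.z (V : V4 F) : F := -V.U'.eval 4

/-- `D / (4 z)` for the total point: `- U (4)`. -/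
noncomputable def V4.z' (V : V4 F) : F := -V.U.eval 4

/-- The action of the torus: `(U, U', Q, R) ↦ (U / x, x U', Q, R)`. -/
noncomputable def V4.tor (x : F) (V : V4 F) : V4 F := ⟨C x⁻¹ * V.U, C x * V.U', V.Q, V.R⟩

/-- The bounds for the degrees of the components of the four-vector of a chain of length `n`:
`U`, `U'` have `(n + 1) / 2` coefficients, `Q` has `n / 2 + 1`, `R` has `n / 2`. -/
def V4.Deg (n : ℕ) (V : V4 F) : Prop :=
  (∀ m, (n + 1) / 2 ≤ m → V.U.coeff m = 0) ∧ (∀ m, (n + 1) / 2 ≤ m → V.U'.coeff m = 0) ∧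
  (∀ m, n / 2 + 1 ≤ m → V.Q.coeff m = 0) ∧ (∀ m, n / 2 ≤ m → V.R.coeff m = 0)

/-- One step of the family of chains with the same `V` up to the torus: the coordinate of the
inner vertex as a function of the coordinate `x` of the outer vertex. -/
def dn (e : Ed ι F) (x : F) : F :=
  (e.s * (e.z + e.t) * x - e.t * (e.z + e.s)) / (e.z * ((e.z + e.s) - (e.z + e.t) * x))

/-- The family of chains: `fam c 1 = c`, `vec (fam c x) = (vec c).tor x`. -/
def fam : List (Ed ι F) → F → List (Ed ι F)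
  | [], _ => []
  | e :: c, x => ⟨e.i, e.b, e.κ, e.z * dn e x⟩ :: fam c (dn e x)

/-- The denominator of the inner-outer exchange, first formula. -/
def dA (e₂ e₁ : Ed ι F) : F :=
  e₂.t * e₁.z * e₂.z + e₂.s * e₂.t * e₁.z + e₂.s * e₁.t * e₂.z + e₂.s * e₁.t * e₂.t

/-- The numerator of the inner-outer exchange, first formula. -/
def nA (e₂ e₁ : Ed ι F) : F :=
  e₁.z * e₂.z + e₂.s * e₁.z + e₁.s * e₂.z + e₁.s * e₂.t

/-- The denominator, second formula. -/
def dB (e₂ e₁ : Ed ι F) : F :=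
  e₁.t * e₁.z * e₂.z + e₁.s * e₁.t * e₂.z + e₁.s * e₂.t * e₁.z + e₁.s * e₁.t * e₂.t

/-- The numerator, second formula. -/
def nB (e₂ e₁ : Ed ι F) : F :=
  e₁.z * e₂.z + e₁.s * e₂.z + e₂.s * e₁.z + e₂.s * e₁.t

/-- The new coordinate of the inner edge `e₁` (which becomes the outer one). -/
def swz₁ (e₂ e₁ : Ed ι F) : F := e₁.t * e₂.z * nA e₂ e₁ / dA e₂ e₁

/-- The new coordinate of the outer edge `e₂` (which becomes the inner one). -/
def swz₂ (e₂ e₁ : Ed ι F) : F := e₂.t * e₁.z * nB e₂ e₁ / dB e₂ e₁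

/-- The moves: exchange of two neighbours (Adler recutting), change of the sign of `κ` of the
innermost edge. -/
inductive Adj : List (Ed ι F) → List (Ed ι F) → Prop
  | swap (e₂ e₁ : Ed ι F) (c : List (Ed ι F)) : Adj (e₂ :: e₁ :: c)
      (⟨e₁.i, e₁.b, e₁.κ, swz₁ e₂ e₁⟩ :: ⟨e₂.i, e₂.b, e₂.κ, swz₂ e₂ e₁⟩ :: c)
  | flip (e : Ed ι F) : Adj [e] [⟨e.i, e.b, -e.κ, e.s * e.t / e.z⟩]
  | cons (e : Ed ι F) {c c' : List (Ed ι F)} : Adj c c' → Adj (e :: c) (e :: c')

/-- A nondegenerate edge. -/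
structure Ed.Fine (e : Ed ι F) : Prop where
  b : e.b ≠ 0
  κ : e.κ ≠ 0
  s : e.s ≠ 0
  t : e.t ≠ 0
  z : e.z ≠ 0
  zs : e.z + e.s ≠ 0
  zt : e.z + e.t ≠ 0

/-- The denominators and numerators for the exchange of two neighbours do not vanish. -/
def Nb (e₂ e₁ : Ed ι F) : Prop := dA e₂ e₁ ≠ 0 ∧ nA e₂ e₁ ≠ 0 ∧ dB e₂ e₁ ≠ 0 ∧ nB e₂ e₁ ≠ 0

/-- A nondegenerate chain: all edges are nondegenerate, the spectral values are different, the
exchange of any two neighbours is defined, and the outermost edge of every inner part can be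
recovered (`U' (w) ≠ 0`). -/
def FineC : List (Ed ι F) → Prop
  | [] => True
  | e :: c => e.Fine ∧ (∀ e' ∈ c, e'.w ≠ e.w) ∧ (∀ e' ∈ c.head?, Nb e e') ∧
      (act e (vec c)).U'.eval e.w ≠ 0 ∧ FineC c

/-- The chain is nondegenerate, and so are all chains obtained from it by moves. -/
def Good (c : List (Ed ι F)) : Prop := ∀ c', Relation.ReflTransGen Adj c c' → FineC c'

/-- The product of the `κ`. -/
def kap (c : List (Ed ι F)) : F := (c.map fun e => e.κ).prod

/-- The product of the `Υ (z)`. -/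
def upc (c : List (Ed ι F)) : F := (c.map fun e => e.ups).prod

/-- The coordinate with label `i` (for a chain in which all labels are different). -/
def zof [DecidableEq ι] (c : List (Ed ι F)) (i : ι) : F :=
  (c.map fun e => if e.i = i then e.z else 0).sum

/-- The coordinate `x` of the total point, `ξ = μ ^ 2 + A / μ ^ 2`; `A` is the product of the
`a i`, `μ ^ 6 = N (V)`. -/
def xi (A μ : F) : F := μ ^ 2 + A / μ ^ 2

/-- The coordinate `y` of the total point, `(z - D / (4 z)) / μ ^ 3`. -/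
noncomputable def V4.y (V : V4 F) (μ : F) : F := (V.z - V.z') / μ ^ 3

/-- The parameter of the flat transform: with `ρ = κ / A` (so `ρ ^ 2 = A`), `μ' = ρ / μ` and
`z' = (μ' ^ 6 - b + μ' ^ 3 y) / 2` it is `z' / z`. -/
noncomputable def V4.flat (V : V4 F) (ρ μ : F) : F :=
  ((ρ / μ) ^ 6 - V.Q.eval 4 + (ρ / μ) ^ 3 * V.y μ) / (2 * V.z)

end defs

/-- A chain whose edges are the labels of `ι`, each once, with the given invariants. -/
structure IsChain {ι F : Type*} [Field F] (a b : ι → F) (c : List (Ed ι F)) : Prop where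
  nodup : (c.map fun e => e.i).Nodup
  all : ∀ i, i ∈ c.map fun e => e.i
  hb : ∀ e ∈ c, e.b = b e.i
  hκ : ∀ e ∈ c, e.κ ^ 2 = a e.i ^ 3

end Pool.Agent.Helper83.VN
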