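import Mathlib
import Pool.Agent.Helper83.VN.Pnt

/-!
# Block VN-KF: functions on the places of a function field

`fun_psT`: take `F w = Ψ (eval (fun i => D.pt (algebraMap k K (T i)) (x i) (y i)) w)`;
`Kills.gen` is the orthogonality, `eval_pt` the value (`D.a (algebraMap k K t) =
algebraMap k K (D.a t)`).
`kf_harm`: a linear combination of such functions. `kf_val`: `eval_pt` in each variable (the points
are on the curves by `onE_of_onX`, `onX_mul`); the family of points is `f ∘ π` with
`f j = D.pt (T j) ..`; `Ψ (f ∘ π) = sign π * Ψ f` (`h.alt`, `Equiv.Perm.swap_induction_on`); the sum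
over `e` is reindexed by `e ↦ e ∘ π.symm`. `kf_base`: `eval_pole_base`, `odd_sing`. `kf_pole`:
`eval_pole` and `Odd.zero_of_neg` (`px a v = v ^ 2 + a / v ^ 2` has a pole).
-/

set_option linter.unusedSectionVars false

namespace Pool.Agent.Helper83.VN

open VC VF Function
open Pool.Agent.Helper51.EW Pool.Agent.Helper51.VN

universe u

variable {k : Type u} [Field k] [IsAlgClosed k] [CharZero k] {W : Wei k} (D : Cor W)
  {K : Type u} [Field K] [Algebra k K] {n : ℕ} {Ψ : (W.surface.pow n).Pt → k}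

/-! ### Auxiliary facts -/

lemma kf_a_const (t : k) : D.a (algebraMap k K t) = algebraMap k K (D.a t) :=
  Polynomial.aeval_algebraMap_apply K t D.al

lemma kf_b_const (t : k) : D.b (algebraMap k K t) = algebraMap k K (D.b t) :=
  Polynomial.aeval_algebraMap_apply K t D.be

lemma kf_omega_ne {ω : k} (hω : ω ^ 2 + ω + 1 = 0) : ω ≠ 0 := by
  rintro rfl
  norm_num at hω

lemma kf_omega_pow {ω : k} (hω : ω ^ 2 + ω + 1 = 0) (m : ℕ) : (ω ^ m) ^ 6 = 1 := by
  have h3 : ω ^ 3 = 1 := by linear_combination (ω - 1) * hω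
  rw [← pow_mul, mul_comm m 6, pow_mul, show (6 : ℕ) = 3 * 2 from rfl, pow_mul, h3, one_pow,
    one_pow]

lemma kf_map_pow {ω : k} (hω : ω ^ 2 + ω + 1 = 0) (m : ℕ) :
    (algebraMap k K (ω ^ m)) ^ 6 = 1 := by
  rw [← map_pow, kf_omega_pow hω, map_one]

/-- An alternating function under a permutation. -/
lemma kf_perm (h : Odd W n Ψ) (π : Equiv.Perm (Fin n)) :
    ∀ p : (W.surface.pow n).Pt, Ψ (fun l => p (π l)) =
      (((Equiv.Perm.sign π : ℤˣ) : ℤ) : k) * Ψ p := by
  induction π using Equiv.Perm.swap_induction_on with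
  | one => intro p; simp
  | swap_mul f i j hij ih =>
    intro p
    have h1 := ih (fun l => p (Equiv.swap i j l))
    rw [h.alt i j hij p] at h1
    have h2 : (fun l => p ((Equiv.swap i j * f) l)) = fun l => p (Equiv.swap i j (f l)) := rfl
    rw [h2, h1, Equiv.Perm.sign_mul, Equiv.Perm.sign_swap hij]
    push_cast
    ring

/-! ### The restriction to a product of fibres -/

/-- The restrictions of an odd alternating function to products of fibres are functionals. -/
theorem fun_psT (h : Odd W n Ψ) (T : Fin n → k) :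
    Fun (fun i => D.a (T i)) (fun i => D.b (T i)) (psT D Ψ T) := by
  refine ⟨?_, ?_⟩
  · intro K _ _ hK x y hxy
    refine ⟨fun w => Ψ ((W.surface.pow n).eval hK
      (fun i => D.pt (algebraMap k K (T i)) (x i) (y i)) w), ?_, ?_⟩
    · intro f hf
      exact h.kills.gen hK (fun i => D.pt (algebraMap k K (T i)) (x i) (y i)) hf
    · intro w c d hc hd
      change Ψ (fun i => W.surface.eval hK (D.pt (algebraMap k K (T i)) (x i) (y i)) w) =
        Ψ (fun i => D.pt (T i) (c i) (d i))
      congr 1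
      funext i
      refine eval_pt D hK w ?_ (isRes_const _) (hc i) (hd i)
      rw [kf_a_const, kf_b_const]
      exact hxy i
  · intro p i hp
    have h1 := h.odd (fun j => D.pt (T j) (p j).1 (p j).2) i
    have h2 : update (fun j => D.pt (T j) (p j).1 (p j).2) i
        (neg (D.pt (T i) (p i).1 (p i).2)) =
        fun j => D.pt (T j) ((update p i ((p i).1, -(p i).2)) j).1
          ((update p i ((p i).1, -(p i).2)) j).2 := by
      funext j
      by_cases hj : j = i
      · subst hj
        rw [update_self, update_self, neg_pt D (hp j)]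
      · rw [update_of_ne hj, update_of_ne hj]
    change Ψ (fun j => D.pt (T j) ((update p i ((p i).1, -(p i).2)) j).1
      ((update p i ((p i).1, -(p i).2)) j).2) = -Ψ (fun j => D.pt (T j) (p j).1 (p j).2)
    rw [← h2]
    exact h1

/-! ### The functions on the places of a function field -/

variable (ω : k) (hK : IsFunctionField k K) {t z v : Fin n → K}

theorem kf_harm (h : Odd W n Ψ) (t z v : Fin n → K) : Harm hK (KF D ω Ψ hK t z v) := by
  intro f hf
  unfold KF
  simp only [Finset.mul_sum]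
  rw [Finset.sum_comm]
  apply Finset.sum_eq_zero
  intro e _
  have h1 := h.kills.gen hK (kpt D ω t z v e) hf
  have h2 : ∀ w ∈ (finite_support_ord hK hf).toFinset,
      (ord w.ring f : k) * (ω ^ (-∑ i, e i).val *
        Ψ ((W.surface.pow n).eval hK (kpt D ω t z v e) w)) =
      ω ^ (-∑ i, e i).val * ((ord w.ring f : k) *
        Ψ ((W.surface.pow n).eval hK (kpt D ω t z v e) w)) := fun w _ => by ring
  rw [Finset.sum_congr rfl h2, ← Finset.mul_sum, h1, mul_zero]

/-- The points are on the curves. -/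
lemma kf_onE {ω : k} (hω : ω ^ 2 + ω + 1 = 0) {t z v : K}
    (hX : OnX (D.b t) (D.d t) z v) (m : ℕ) :
    OnE (D.a t) (D.b t) (px (D.a t) (algebraMap k K (ω ^ m) * v))
      (py (D.d t) z (algebraMap k K (ω ^ m) * v)) := by
  have hC : CharZero K := charZero_of_injective_algebraMap (algebraMap k K).injective
  exact onE_of_onX rfl (onX_mul (kf_map_pow hω m) hX)

/-- The value at a place at which everything is regular. -/
theorem kf_val (hω : ω ^ 2 + ω + 1 = 0) (h : Odd W n Ψ)
    (hX : ∀ i, OnX (D.b (t i)) (D.d (t i)) (z i) (v i)) (w : Place k K)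
    (π : Equiv.Perm (Fin n)) {T ζ ν : Fin n → k} (ht : ∀ i, IsRes w (t i) (T (π i)))
    (hz : ∀ i, IsRes w (z i) (ζ i)) (hv : ∀ i, IsRes w (v i) (ν i)) (hζ : ∀ i, ζ i ≠ 0)
    (hν : ∀ i, ν i ≠ 0) :
    KF D ω Ψ hK t z v w = (((Equiv.Perm.sign π : ℤˣ) : ℤ) : k) *
      FF ω (fun i => D.a (T i)) (fun i => D.d (T i)) (psT D Ψ T) (fun i => ζ (π.symm i))
        (fun i => ν (π.symm i)) := by
  have hω0 := kf_omega_ne hω
  have h4 : IsRes w (4 : K) (4 : k) := by
    have := isRes_const (v := w) (4 : k)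
    rwa [map_ofNat] at this
  have hval : ∀ (e : Fin n → ZMod 3) (i : Fin n),
      W.surface.eval hK (D.pt (t i) (px (D.a (t i)) (algebraMap k K (ω ^ (e i).val) * v i))
        (py (D.d (t i)) (z i) (algebraMap k K (ω ^ (e i).val) * v i))) w =
      D.pt (T (π i)) (px (D.a (T (π i))) (ω ^ (e i).val * ν i))
        (py (D.d (T (π i))) (ζ i) (ω ^ (e i).val * ν i)) := by
    intro e i
    have hv' : IsRes w (algebraMap k K (ω ^ (e i).val) * v i) (ω ^ (e i).val * ν i) :=
      (isRes_const _).mul (hv i)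
    have hn : ω ^ (e i).val * ν i ≠ 0 := mul_ne_zero (pow_ne_zero _ hω0) (hν i)
    refine eval_pt D hK w (kf_onE D hω (hX i) _) (ht i) ?_ ?_
    · unfold px
      rw [div_eq_mul_inv, div_eq_mul_inv]
      exact (hv'.pow 2).add ((isRes_a D (ht i)).mul ((hv'.pow 2).inv hK (pow_ne_zero _ hn)))
    · unfold py
      rw [div_eq_mul_inv, div_eq_mul_inv, div_eq_mul_inv, div_eq_mul_inv]
      exact ((hz i).sub ((isRes_d D (ht i)).mul ((h4.mul (hz i)).inv hK
        (mul_ne_zero (by norm_num) (hζ i))))).mul ((hv'.pow 3).inv hK (pow_ne_zero _ hn))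
  unfold KF FF
  rw [← Equiv.sum_comp (Equiv.arrowCongr π.symm (Equiv.refl (ZMod 3))), Finset.mul_sum]
  apply Finset.sum_congr rfl
  intro e _
  have he : ∀ i, (Equiv.arrowCongr π.symm (Equiv.refl (ZMod 3))) e i = e (π i) := fun i => rfl
  have hsum : ∑ i, (Equiv.arrowCongr π.symm (Equiv.refl (ZMod 3))) e i = ∑ i, e i :=
    Equiv.sum_comp π e
  rw [hsum]
  let q : (W.surface.pow n).Pt := fun j => D.pt (T j) (px (D.a (T j)) (ω ^ (e j).val *
    ν (π.symm j))) (py (D.d (T j)) (ζ (π.symm j)) (ω ^ (e j).val * ν (π.symm j)))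
  have h1 : (W.surface.pow n).eval hK
      (kpt D ω t z v ((Equiv.arrowCongr π.symm (Equiv.refl (ZMod 3))) e)) w =
      fun i => q (π i) := by
    funext i
    change W.surface.eval hK (D.pt (t i) (px (D.a (t i)) (algebraMap k K
        (ω ^ ((Equiv.arrowCongr π.symm (Equiv.refl (ZMod 3))) e i).val) * v i))
        (py (D.d (t i)) (z i) (algebraMap k K
        (ω ^ ((Equiv.arrowCongr π.symm (Equiv.refl (ZMod 3))) e i).val) * v i))) w =
        D.pt (T (π i)) (px (D.a (T (π i))) (ω ^ (e (π i)).val * ν (π.symm (π i))))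
          (py (D.d (T (π i))) (ζ (π.symm (π i))) (ω ^ (e (π i)).val * ν (π.symm (π i))))
    rw [hval, he, Equiv.symm_apply_apply]
  have h2 : Ψ (fun i => q (π i)) = (((Equiv.Perm.sign π : ℤˣ) : ℤ) : k) * Ψ q := kf_perm h π q
  rw [h1, h2]
  change ω ^ (-∑ i, e i).val * ((((Equiv.Perm.sign π : ℤˣ) : ℤ) : k) * Ψ q) =
    (((Equiv.Perm.sign π : ℤˣ) : ℤ) : k) * (ω ^ (-∑ i, e i).val * Ψ q)
  ring

/-- The value is zero if one of the `t i` has a pole. -/
theorem kf_base (hω : ω ^ 2 + ω + 1 = 0) (h : Odd W n Ψ)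
    (hX : ∀ i, OnX (D.b (t i)) (D.d (t i)) (z i) (v i)) (w : Place k K) {i : Fin n}
    (hi : t i ∉ w.ring) : KF D ω Ψ hK t z v w = 0 := by
  unfold KF
  apply Finset.sum_eq_zero
  intro e _
  obtain ⟨c, hc1, hc2⟩ := eval_pole_base D hK w (kf_onE D hω (hX i) (e i).val) hi
  rw [odd_sing h (i := i) (c := c) hc1 hc2, mul_zero]

/-- The value is zero if one of the `v i` has a pole or a zero, and `a (t i)` is not zero there. -/
theorem kf_pole (hω : ω ^ 2 + ω + 1 = 0) (h : Odd W n Ψ)
    (hX : ∀ i, OnX (D.b (t i)) (D.d (t i)) (z i) (v i)) (w : Place k K) {i : Fin n} {τ : k}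
    (ht : IsRes w (t i) τ) (ha : D.a τ ≠ 0) (hi : v i ∉ w.ring ∨ IsRes w (v i) 0) :
    KF D ω Ψ hK t z v w = 0 := by
  have hω0 := kf_omega_ne hω
  unfold KF
  apply Finset.sum_eq_zero
  intro e _
  have hg : ω ^ (e i).val ≠ 0 := pow_ne_zero _ hω0
  have hpx : px (D.a (t i)) (algebraMap k K (ω ^ (e i).val) * v i) ∉ w.ring := by
    set v' : K := algebraMap k K (ω ^ (e i).val) * v i with hv'
    have hvi : v i = algebraMap k K (ω ^ (e i).val)⁻¹ * v' := by
      rw [hv', ← mul_assoc, ← map_mul, inv_mul_cancel₀ hg, map_one, one_mul]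
    have hv0 : v' ≠ 0 := by
      rw [hv']
      exact mul_ne_zero (by rw [Ne, _root_.map_eq_zero]; exact hg) (hX i).2.1
    intro hmem
    unfold px at hmem
    rcases hi with hi | hi
    · have h1 : v' ∉ w.ring := by
        intro h1
        apply hi
        rw [hvi]
        exact w.ring.mul_mem _ _ (w.algebraMap_mem _) h1
      have h2 : v'⁻¹ ∈ w.ring := (w.ring.mem_or_inv_mem v').resolve_left h1
      have h3 : D.a (t i) / v' ^ 2 ∈ w.ring := by
        rw [div_eq_mul_inv, ← inv_pow]
        exact w.ring.mul_mem _ _ (isRes_a D ht).mem (pow_mem h2 2)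
      have h4 : v' ^ 2 ∈ w.ring := by
        have := sub_mem hmem h3
        rwa [add_sub_cancel_right] at this
      exact h1 (mem_of_pow two_ne_zero h4)
    · have h1 : IsRes w v' 0 := by
        have := (isRes_const (v := w) (ω ^ (e i).val)).mul hi
        rwa [mul_zero] at this
      have h2 : IsRes w (v' ^ 2) 0 := by
        have := h1.pow 2
        rwa [zero_pow two_ne_zero] at this
      have h3 : D.a (t i) / v' ^ 2 ∈ w.ring := by
        have := sub_mem hmem h2.mem
        rwa [add_sub_cancel_left] at this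
      have h4 : D.a (t i) ∈ w.ring.nonunits := by
        have := nonunits_mul h3 (isRes_zero_iff.mp h2)
        rwa [div_mul_cancel₀ _ (pow_ne_zero 2 hv0)] at this
      exact ha ((isRes_a D ht).unique (isRes_zero_iff.mpr h4))
  have h1 := eval_pole D hK w (kf_onE D hω (hX i) (e i).val) ht hpx
  have h2 : Ψ ((W.surface.pow n).eval hK (kpt D ω t z v e) w) = 0 := h.zero_of_neg (i := i) h1
  rw [h2, mul_zero]

end Pool.Agent.Helper83.VN
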