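import Mathlib
import Pool.Agent.Helper83.VN.Fr4

/-!
# Block VN-AT0: the chains over `k`

`exists_atK`: `hzz` is the lemma `zz` (Iface) for the chain `c` and `kap c ^ 2 = A ^ 3`. By
`four_of` and `H.four` the chain `fam c (xm V₀ η ε m)` is good; `reach_all` gives `c₁` with the
prescribed labels (the permutation and the signs of the `κ`), `hp`; along the path `vec` does not
change (`vec_adj`, all chains on the path are `FineC`), `hf` from `Good`. `hv` from `vec_fam`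
(with `x = xm ..`, nonzero because its product with the corresponding value for the opposite sign
is `V₀.z' / V₀.z`). `hf'`: by `reach_fam` (part II) and `fam_fam` the chain `flc D T c₁ m` is
reached by moves from `fam c (xm V₀ η ε (ρ₁ / m))`, `ρ₁ = rho c₁ = ± rho c`, which is good by
`four_of` (for `ρ₁ / m` instead of `m`).
-/

set_option linter.unusedSectionVars false

namespace Pool.Agent.Helper83.VN

open VC VF Function Polynomial
open Pool.Agent.Helper51.EW Pool.Agent.Helper51.VN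

universe u

variable {k : Type u} [Field k] [IsAlgClosed k] [CharZero k] {W : Wei k} {D : Cor W} {n : ℕ}
  {T : Fin n → k} {V₀ : V4 k} {ξ η : k} {C : Con D T V₀ ξ η} {c : List (Ed (Fin n) k)} {μ : k}

private lemma fine_mem80 {ι F : Type*} [Field F] : ∀ {c : List (Ed ι F)}, FineC c → ∀ e ∈ c, e.Fine := by
  intro c
  induction c with
  | nil =>
    intro _ e he
    exact absurd he (List.not_mem_nil)
  | cons e₀ c ih =>
    intro h e he
    rcases List.mem_cons.1 he with rfl | he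
    · exact h.1
    · exact ih h.2.2.2.2 e he

private lemma fam_lab80 {ι F : Type*} [Field F] (c : List (Ed ι F)) : ∀ x : F,
    (fam c x).map Ed.lab = c.map Ed.lab := by
  induction c with
  | nil =>
    intro x
    rfl
  | cons e c ih =>
    intro x
    show Ed.lab _ :: (fam c (dn e x)).map Ed.lab = Ed.lab e :: c.map Ed.lab
    rw [ih]
    rfl

private lemma vec_path80 {ι F : Type*} [Field F] [CharZero F] {c c' : List (Ed ι F)} (hc : Good c)
    (h : Relation.ReflTransGen Adj c c') : vec c' = vec c := by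
  induction h with
  | refl => rfl
  | tail h1 h2 ih => rw [vec_adj h2 (hc _ h1), ih]

/-- the two values `x` for the signs `ε` and `-ε` -/
private lemma xm_mul80 {F : Type*} [Field F] [CharZero F] {V : V4 F} {A μ ε m : F}
    (hz : V.z ≠ 0) (hμ : μ ≠ 0) (hN : μ ^ 6 = V.N)
    (hzz : 4 * V.z * V.z' = V.Q.eval 4 ^ 2 - A ^ 3) (hε : ε = 1 ∨ ε = -1) (hm : m ≠ 0)
    (hξ : xi A m = xi A μ) :
    ((m ^ 6 - V.Q.eval 4 + m ^ 3 * (ε * V.y μ)) / 2 / V.z) *
      ((m ^ 6 - V.Q.eval 4 - m ^ 3 * (ε * V.y μ)) / 2) = V.z' := by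
  have hε2 : ε ^ 2 = 1 := by
    rcases hε with rfl | rfl <;> ring
  have h3 : ∀ y : F, y ≠ 0 → xi A y ^ 3 - 3 * A * xi A y = y ^ 6 + A ^ 3 / y ^ 6 := by
    intro y hy
    unfold xi
    field_simp
    ring
  have h4 : m ^ 6 + A ^ 3 / m ^ 6 = μ ^ 6 + A ^ 3 / μ ^ 6 := by
    rw [← h3 m hm, ← h3 μ hμ, hξ]
  rw [N_eq] at hN
  have h5 : V.y μ ^ 2 * μ ^ 6 = (V.z - V.z') ^ 2 := by
    unfold V4.y
    field_simp
  have h6 : V.y μ ^ 2 = μ ^ 6 + A ^ 3 / μ ^ 6 - 2 * V.Q.eval 4 := by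
    have h7 : V.y μ ^ 2 * μ ^ 6 = (μ ^ 6 + A ^ 3 / μ ^ 6 - 2 * V.Q.eval 4) * μ ^ 6 := by
      rw [h5]
      have h8 : (μ ^ 6 + A ^ 3 / μ ^ 6 - 2 * V.Q.eval 4) * μ ^ 6 =
          μ ^ 6 * μ ^ 6 + A ^ 3 - 2 * V.Q.eval 4 * μ ^ 6 := by
        field_simp
      rw [h8, hN]
      linear_combination (-1 : F) * hzz
    exact mul_right_cancel₀ (pow_ne_zero 6 hμ) h7
  rw [← h4] at h6
  have h9 : m ^ 6 * V.y μ ^ 2 = (m ^ 6) ^ 2 + A ^ 3 - 2 * V.Q.eval 4 * m ^ 6 := by
    rw [h6]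
    field_simp
  have h10 : (m ^ 6 - V.Q.eval 4 + m ^ 3 * (ε * V.y μ)) * (m ^ 6 - V.Q.eval 4 - m ^ 3 * (ε * V.y μ)) =
      4 * V.z * V.z' := by
    have h11 : (m ^ 6 - V.Q.eval 4 + m ^ 3 * (ε * V.y μ)) * (m ^ 6 - V.Q.eval 4 - m ^ 3 * (ε * V.y μ)) =
        (m ^ 6 - V.Q.eval 4) ^ 2 - ε ^ 2 * (m ^ 6 * V.y μ ^ 2) := by ring
    rw [h11, hε2, h9, hzz]
    ring
  have h12 : ((m ^ 6 - V.Q.eval 4 + m ^ 3 * (ε * V.y μ)) / 2 / V.z) *
      ((m ^ 6 - V.Q.eval 4 - m ^ 3 * (ε * V.y μ)) / 2) =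
      ((m ^ 6 - V.Q.eval 4 + m ^ 3 * (ε * V.y μ)) * (m ^ 6 - V.Q.eval 4 - m ^ 3 * (ε * V.y μ))) / (4 * V.z) := by
    field_simp
    ring
  rw [h12, h10]
  field_simp

/-- all labels, each once, in a prescribed order -/
private lemma sgn80 {a b : Fin n → k} {c : List (Ed (Fin n) k)} (hc : IsChain a b c)
    (π : Equiv.Perm (Fin n)) (κ₀ : Fin n → k) (hκ : ∀ i, κ₀ i ^ 2 = a (π i) ^ 3) :
    SgnPerm (c.map Ed.lab) (List.ofFn fun i => (π i, b (π i), κ₀ i)) := by
  classical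
  have hex : ∀ j, ∃ e ∈ c, e.i = j := fun j => List.mem_map.1 (hc.all j)
  choose ed hed hedi using hex
  have hinj : ∀ e ∈ c, ed e.i = e := by
    intro e he
    exact List.inj_on_of_nodup_map hc.nodup (hed _) he (hedi _)
  have h1 : c.map Ed.lab = (c.map fun e => e.i).map fun j => (j, b j, (ed j).κ) := by
    rw [List.map_map]
    apply List.map_congr_left
    intro e he
    show (e.i, e.b, e.κ) = (e.i, b e.i, (ed e.i).κ)
    rw [hinj e he, hc.hb e he]
  have h2 : (List.ofFn π).Perm (c.map fun e => e.i) := by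
    rw [List.perm_ext_iff_of_nodup (List.nodup_ofFn.2 π.injective) hc.nodup]
    intro j
    refine ⟨fun _ => hc.all j, fun _ => ?_⟩
    rw [List.mem_ofFn]
    exact ⟨π.symm j, π.apply_symm_apply j⟩
  refine ⟨(List.ofFn π).map fun j => (j, b j, (ed j).κ), ?_, ?_⟩
  · rw [h1]
    exact h2.map _
  · rw [List.ofFn_eq_map, List.ofFn_eq_map, List.map_map, List.forall₂_map_left_iff,
      List.forall₂_map_right_iff, List.forall₂_same]
    intro i _
    refine ⟨rfl, rfl, ?_⟩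
    show κ₀ i = (ed (π i)).κ ∨ κ₀ i = -(ed (π i)).κ
    have h3 := hc.hκ (ed (π i)) (hed _)
    rw [hedi] at h3
    exact sq_eq_sq_iff_eq_or_eq_neg.1 ((hκ i).trans h3.symm)

/-- The chains over `k` to which the chains over `K` reduce at a place over `s = 0`. -/
theorem exists_atK (H : Chn D T V₀ ξ η c μ) {π : Equiv.Perm (Fin n)} {κ₀ : Fin n → k} {ε m : k}
    (hκ : ∀ i, κ₀ i ^ 2 = D.a (T (π i)) ^ 3) (hε : ε = 1 ∨ ε = -1) (hm : m ≠ 0)
    (hξ : xi (∏ i, D.a (T i)) m = ξ) :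
    ∃ c₁ : List (Ed (Fin n) k), AtK D T V₀ ξ η c π κ₀ ε m c₁ := by
  set a : Fin n → k := fun i => D.a (T i) with ha
  set b : Fin n → k := fun i => D.b (T i) with hb
  set A : k := ∏ i, D.a (T i) with hA
  have hA0 : A ≠ 0 := Finset.prod_ne_zero_iff.2 fun i _ => H.ha i
  obtain ⟨hρ, hk⟩ := rho_sq H.ch H.ha
  have hfc : FineC c := H.good c Relation.ReflTransGen.refl
  have hzz : 4 * V₀.z * V₀.z' = V₀.Q.eval 4 ^ 2 - A ^ 3 := by
    have h1 := zz (fine_mem80 hfc)
    rw [H.hvec, hk] at h1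
    exact h1
  have hξμ : xi A μ = ξ := H.hξ
  -- the facts for an arbitrary branch
  have hfour : ∀ m' : k, m' ≠ 0 → xi A m' = ξ → Good (fam c (xm V₀ η ε m')) := by
    intro m' hm' hξ'
    apply H.four
    have h1 := four_of hA0 hρ H.hz H.hz' H.hμ H.hN hzz hε hm' (hξ'.trans hξμ.symm)
    rw [H.hη] at h1
    exact h1
  have hmul : ∀ m' : k, m' ≠ 0 → xi A m' = ξ → xm V₀ η ε m' *
      ((m' ^ 6 - V₀.Q.eval 4 - m' ^ 3 * (ε * η)) / 2) = V₀.z' := by
    intro m' hm' hξ'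
    have h1 := xm_mul80 (A := A) H.hz H.hμ H.hN hzz hε hm' (hξ'.trans hξμ.symm)
    rw [H.hη] at h1
    exact h1
  have hne : ∀ m' : k, m' ≠ 0 → xi A m' = ξ → xm V₀ η ε m' ≠ 0 := by
    intro m' hm' hξ' h0
    have h1 := hmul m' hm' hξ'
    rw [h0, zero_mul] at h1
    exact H.hz' h1.symm
  have hxz : ∀ m' : k, xm V₀ η ε m' * V₀.z = (m' ^ 6 - V₀.Q.eval 4 + m' ^ 3 * (ε * η)) / 2 := by
    intro m'
    unfold xm
    rw [div_mul_cancel₀ _ H.hz]
  set x : k := xm V₀ η ε m with hx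
  have hx0 : x ≠ 0 := hne m hm hξ
  have hG : Good (fam c x) := hfour m hm hξ
  have hGf : FineC (fam c x) := hG _ Relation.ReflTransGen.refl
  obtain ⟨c₁, hp, hl⟩ := reach_all (fam c x) (List.ofFn fun i => (π i, b (π i), κ₀ i)) (by
    rw [fam_lab80]
    exact sgn80 H.ch π κ₀ hκ)
  have hf : FineC c₁ := hG c₁ hp
  have hv : vec c₁ = V₀.tor x := by
    rw [vec_path80 hG hp, vec_fam hfc hx0 hGf, H.hvec]
  have hz1 : (vec c₁).z = x * V₀.z := by rw [hv, tor_z]
  have hz1' : (vec c₁).z' = V₀.z' / x := by rw [hv, tor_z']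
  have hQ1 : (vec c₁).Q = V₀.Q := by rw [hv, tor_Q]
  have hz10 : (vec c₁).z ≠ 0 := by
    rw [hz1]
    exact mul_ne_zero hx0 H.hz
  have hz1'' : (vec c₁).z' = (m ^ 6 - V₀.Q.eval 4 - m ^ 3 * (ε * η)) / 2 := by
    rw [hz1', ← hmul m hm hξ, mul_div_cancel_left₀ _ hx0]
  have hlab : c₁.map (fun e => e.i) = List.ofFn π := by
    have h1 : c₁.map (fun e => e.i) = (c₁.map Ed.lab).map Prod.fst := by
      rw [List.map_map]
      rfl
    rw [h1, hl, List.map_ofFn]
    rfl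
  have hmem : ∀ e ∈ c₁, ∃ i, e.i = π i ∧ e.b = b (π i) ∧ e.κ = κ₀ i := by
    intro e he
    have h1 : e.lab ∈ c₁.map Ed.lab := List.mem_map_of_mem he
    rw [hl, List.mem_ofFn] at h1
    obtain ⟨i, hi⟩ := h1
    have h2 : (π i, b (π i), κ₀ i) = (e.i, e.b, e.κ) := hi
    rw [Prod.mk.injEq, Prod.mk.injEq] at h2
    exact ⟨i, h2.1.symm, h2.2.1.symm, h2.2.2.symm⟩
  have hch : IsChain a b c₁ := by
    refine ⟨?_, ?_, ?_, ?_⟩
    · rw [hlab]
      exact List.nodup_ofFn.2 π.injective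
    · intro j
      rw [hlab, List.mem_ofFn]
      exact ⟨π.symm j, π.apply_symm_apply j⟩
    · intro e he
      obtain ⟨i, h1, h2, _⟩ := hmem e he
      rw [h1, h2]
    · intro e he
      obtain ⟨i, h1, _, h3⟩ := hmem e he
      rw [h1, h3]
      exact hκ i
  obtain ⟨hρ1, _⟩ := rho_sq hch H.ha
  have hρ10 : rho a c₁ ≠ 0 := by
    intro h0
    rw [h0] at hρ1
    apply hA0
    rw [hA, ← hρ1]
    ring
  have hy1 : (vec c₁).y m = ε * η := by
    unfold V4.y
    rw [hz1'', hz1, hxz m, div_eq_iff (pow_ne_zero 3 hm)]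
    ring
  set m' : k := rho a c₁ / m with hm'
  have hm'0 : m' ≠ 0 := div_ne_zero hρ10 hm
  have hξ' : xi A m' = ξ := by
    rw [← hξ]
    have h1 : m' ^ 2 = A / m ^ 2 := by
      rw [hm', div_pow, hρ1]
    unfold xi
    rw [h1]
    field_simp
    ring
  set x' : k := xm V₀ η ε m' with hx'
  have hx'0 : x' ≠ 0 := hne m' hm'0 hξ'
  have hG' : Good (fam c x') := hfour m' hm'0 hξ'
  have hfl : (vec c₁).flat (rho a c₁) m = x' / x := by
    unfold V4.flat
    rw [← hm', hy1, hQ1, hz1, hx']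
    unfold xm
    have := H.hz
    field_simp
  have hxy : x * (x' / x) = x' := mul_div_cancel₀ _ hx0
  have hff : fam (fam c x) (x' / x) = fam c x' := by
    have h1 := fam_fam hfc hGf (y := x' / x) (by
      rw [hxy]
      exact hG' _ Relation.ReflTransGen.refl)
    rw [hxy] at h1
    exact h1
  have hf' : FineC (fam c₁ (x' / x)) := by
    have h1 := reach_fam (x := x' / x) hG (by rw [hff]; exact hG') hp
    rw [hff] at h1
    exact hG' _ h1
  have hv' : vec (fam c₁ (x' / x)) = V₀.tor x' := by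
    rw [vec_fam hf (div_ne_zero hx'0 hx0) hf', hv, tor_tor hx0 (div_ne_zero hx'0 hx0), hxy]
  refine ⟨c₁, ?_⟩
  exact
    { hκ := hκ
      hε := hε
      hm := hm
      hξ := hξ
      hx := hx0
      hl := hl
      hp := hp
      hf := hf
      ch := hch
      hv := hv
      hz := hz10
      hN := by
        rw [N_eq, hz1'', hz1, hxz m, hQ1]
        ring
      hy := hy1
      hf' := by
        unfold flc
        rw [hfl]
        exact hf'
      hx' := hx'0
      hv' := by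
        unfold flc
        rw [hfl]
        exact hv' }

end Pool.Agent.Helper83.VN
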