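import Mathlib
import Pool.Agent.Helper83.VN.F1r
import Pool.Agent.Helper83.VN.At0
import Pool.Agent.Helper83.VN.F1c

/-!
# Block VN-VAL0: the value over `s = 0`

`exists_atW`, `exists_atK`, `exists_dd`, `uniq` (Iface): the chains `F.d`, `F.d'` reduce to `c₁`,
`flc D T c₁ m`. So `zof F.d i` has the value `zof c₁ (π i)`, the `v i` have values (`exists_res_of_pow`)
with product `rho c₁ / m`. `kf_val` and `gf_eq`: the two functions have the values
`sign π * GF (zof c₁) (rho c₁ / m)` and `sign π * GF (zof (flc ..)) m`, the sum is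
`sign π * Gam c₁ m`. By `gam_eq` for `c`, `ε μ` this is `sign σ * Gam c (ε μ)`, and
`Gam c (- μ) = - Gam c μ` (`gf_neg`, and `V.flat ρ (- μ) = V.flat ρ μ`).
-/

set_option linter.unusedSectionVars false

namespace Pool.Agent.Helper83.VN

open VC VF Function Polynomial
open Pool.Agent.Helper51.EW Pool.Agent.Helper51.VN

universe u

variable {k : Type u} [Field k] [IsAlgClosed k] [CharZero k] {W : Wei k} {D : Cor W} {n : ℕ}
  {T : Fin n → k} {V₀ : V4 k} {ξ η : k} {C : Con D T V₀ ξ η} {c : List (Ed (Fin n) k)} {μ : k}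

/-! ### Chains as families of edges -/

private lemma ofFn_of_lab53 {F : Type*} [Field F] {ι : Type*} {n : ℕ} {g : Fin n → ι}
    {B κ : Fin n → F} {c : List (Ed ι F)}
    (h : c.map Ed.lab = List.ofFn fun i => (g i, B i, κ i)) :
    ∃ ζ : Fin n → F, c = List.ofFn fun i => (⟨g i, B i, κ i, ζ i⟩ : Ed ι F) := by
  have hl : c.length = n := by
    have := congrArg List.length h
    simpa using this
  subst hl
  refine ⟨fun i => (c.get i).z, ?_⟩
  apply List.ext_getElem (by simp)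
  intro i h1 h2
  have h3 := List.getElem_of_eq h (i := i) (by simpa using h1)
  simp only [List.getElem_map, List.getElem_ofFn, Ed.lab, Prod.mk.injEq] at h3
  rw [List.getElem_ofFn]
  ext
  · exact h3.1
  · exact h3.2.1
  · exact h3.2.2
  · rfl

private lemma zof_ofFn53 {F : Type*} [Field F] {n : ℕ} {g : Fin n → Fin n}
    (hg : Function.Injective g) (B κ ζ : Fin n → F) (j : Fin n) :
    zof (List.ofFn fun i => (⟨g i, B i, κ i, ζ i⟩ : Ed (Fin n) F)) (g j) = ζ j := by
  unfold zof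
  rw [List.map_ofFn, List.sum_ofFn]
  simp only [Function.comp]
  rw [Finset.sum_eq_single j]
  · simp
  · intro b _ hb
    rw [if_neg]
    intro h
    exact hb (hg h)
  · intro h
    exact absurd (Finset.mem_univ j) h

private lemma fam_lab53 {ι F : Type*} [Field F] (c : List (Ed ι F)) (x : F) :
    (fam c x).map Ed.lab = c.map Ed.lab := by
  induction c generalizing x with
  | nil => rfl
  | cons e c ih =>
    change Ed.lab _ :: List.map Ed.lab (fam c (dn e x)) = _ :: _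
    rw [ih]
    rfl

private lemma fine_mem53 {ι F : Type*} [Field F] {c : List (Ed ι F)} (h : FineC c) :
    ∀ e ∈ c, e.Fine := by
  induction c with
  | nil =>
    intro e he
    exact absurd he List.not_mem_nil
  | cons e c ih =>
    intro e' he'
    rcases List.mem_cons.1 he' with rfl | h'
    · exact h.1
    · exact ih h.2.2.2.2 e' h'

private lemma forall2_ofFn53 {α β : Type*} {R : α → β → Prop} {n : ℕ} {f : Fin n → α}
    {g : Fin n → β} (h : List.Forall₂ R (List.ofFn f) (List.ofFn g)) (j : Fin n) :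
    R (f j) (g j) := by
  have h1 := (List.forall₂_iff_get.1 h).2 j.1 (by simp) (by simp)
  simpa using h1

section core53

variable {K : Type u} [Field K] [Algebra k K]

private lemma isRes_b53 (D : Cor W) {w : Place k K} {t : K} {τ : k} (h : IsRes w t τ) :
    IsRes w (D.b t) (D.b τ) := by
  have h1 := h.poly (p := D.be)
  have h2 : D.b τ = D.be.eval τ := by
    unfold Cor.b
    exact Polynomial.coe_aeval_eq_eval τ ▸ rfl
  rw [h2]
  exact h1

private lemma isRes_a53 (D : Cor W) {w : Place k K} {t : K} {τ : k} (h : IsRes w t τ) :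
    IsRes w (D.a t) (D.a τ) := by
  have h1 := h.poly (p := D.al)
  have h2 : D.a τ = D.al.eval τ := by
    unfold Cor.a
    exact Polynomial.coe_aeval_eq_eval τ ▸ rfl
  rw [h2]
  exact h1

/-- The value of one of the two functions. -/
private theorem val_core53 (D : Cor W) {ω : k} (hω : ω ^ 2 + ω + 1 = 0)
    (hK : IsFunctionField k K) {Ψ : (W.surface.pow n).Pt → k} (h : Odd W n Ψ) {T : Fin n → k}
    {t κ v : Fin n → K} {w : Place k K} {π : Equiv.Perm (Fin n)} {κ₀ : Fin n → k}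
    (ht : ∀ i, IsRes w (t i) (T (π i))) {d : List (Ed (Fin n) K)} {c₁ : List (Ed (Fin n) k)}
    (hd : d.map Ed.lab = List.ofFn fun i => (i, D.b (t i), κ i))
    (hc : c₁.map Ed.lab = List.ofFn fun i => (π i, D.b (T (π i)), κ₀ i))
    (hκ : ∀ i, κ₀ i ^ 2 = D.a (T (π i)) ^ 3) (hf : FineC c₁)
    (hr : List.Forall₂ (Ed.Res w) d c₁)
    (hX : ∀ i, OnX (D.b (t i)) (D.d (t i)) (zof d i) (v i)) {p : K} {p₀ : k}
    (hp : ∏ i, v i = p) (hp' : IsRes w p p₀) :
    KF D ω Ψ hK t (zof d) v w = (((Equiv.Perm.sign π : ℤˣ) : ℤ) : k) *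
      GF ω (fun i => D.a (T i)) (fun i => D.b (T i)) (psT D Ψ T) (zof c₁) p₀ := by
  obtain ⟨ζ', rfl⟩ := ofFn_of_lab53 hd
  obtain ⟨ζ, rfl⟩ := ofFn_of_lab53 hc
  have hz' : ∀ j, zof (List.ofFn fun i => (⟨i, D.b (t i), κ i, ζ' i⟩ : Ed (Fin n) K)) j = ζ' j :=
    fun j => zof_ofFn53 (g := fun i => i) (fun _ _ h => h) _ _ _ j
  have hz : ∀ j, zof (List.ofFn fun i =>
      (⟨π i, D.b (T (π i)), κ₀ i, ζ i⟩ : Ed (Fin n) k)) (π j) = ζ j :=
    fun j => zof_ofFn53 π.injective _ _ _ j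
  have hres : ∀ j, IsRes w (ζ' j) (ζ j) := fun j => (forall2_ofFn53 hr j).2.2
  have hfine : ∀ j, (⟨π j, D.b (T (π j)), κ₀ j, ζ j⟩ : Ed (Fin n) k).Fine := fun j =>
    fine_mem53 hf _ (by rw [List.mem_ofFn]; exact ⟨j, rfl⟩)
  have hζ0 : ∀ j, ζ j ≠ 0 := fun j => (hfine j).z
  have h4 : (4 : k) ≠ 0 := by norm_num
  have hv6 : ∀ j, IsRes w (v j ^ 6) (ζ j + D.b (T (π j)) + D.d (T (π j)) / (4 * ζ j)) := by
    intro j
    rw [(hX j).2.2, hz' j]
    have hb := isRes_b53 D (ht j)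
    have ha := isRes_a53 D (ht j)
    have hd : IsRes w (D.d (t j)) (D.d (T (π j))) := (hb.pow 2).sub (ha.pow 3)
    have h4' : IsRes w (4 : K) (4 : k) := by
      have := isRes_const (v := w) (4 : k)
      rwa [map_ofNat] at this
    exact ((hres j).add hb).add (IsRes.div' hK hd (h4'.mul (hres j)) (mul_ne_zero h4 (hζ0 j)))
  choose ν hν hν6 using fun j => exists_res_of_pow hK (by norm_num : (6 : ℕ) ≠ 0) (hv6 j)
  have hν0 : ∀ j, ν j ≠ 0 := by
    intro j h0
    have h1 := hν6 j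
    rw [h0, zero_pow (by norm_num)] at h1
    have h2 := (hfine j).zs
    have h3 := (hfine j).zt
    have h5 := hζ0 j
    simp only [Ed.s, Ed.t] at h2 h3
    apply mul_ne_zero h2 h3
    have h6 : D.d (T (π j)) = D.b (T (π j)) ^ 2 - κ₀ j ^ 2 := by
      rw [hκ j]; rfl
    rw [h6] at h1
    field_simp at h1
    linear_combination (1 / 4 : k) * (-h1)
  have e1 := kf_val D ω hK hω h hX w π ht (ζ := ζ) (ν := ν)
    (fun i => by rw [hz' i]; exact hres i) hν hζ0 hν0
  rw [e1]
  congr 1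
  have e2 : (zof (List.ofFn fun i => (⟨π i, D.b (T (π i)), κ₀ i, ζ i⟩ : Ed (Fin n) k))) =
      fun i => ζ (π.symm i) := by
    funext i
    have := hz (π.symm i)
    rwa [Equiv.apply_symm_apply] at this
  have e3 := gf_eq (a := fun i => D.a (T i)) (b := fun i => D.b (T i)) hω (fun_psT D h T)
    (z := fun i => ζ (π.symm i)) (v' := fun i => ν (π.symm i)) (v := p₀)
    (by
      intro i
      refine ⟨hζ0 _, hν0 _, ?_⟩
      have := hν6 (π.symm i)
      rw [Equiv.apply_symm_apply] at this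
      exact this)
    (by
      rw [Equiv.prod_comp π.symm ν]
      have h7 : IsRes w (∏ i, v i) (∏ i, ν i) := IsRes.prod' _ fun i _ => hν i
      rw [hp] at h7
      exact h7.unique hp')
  rw [e2, e3]
  rfl

end core53

theorem gam_neg {ω : k} (hω : ω ^ 2 + ω + 1 = 0) {n : ℕ} (hn : n ≠ 0) {a b : Fin n → k}
    {ψ : (Fin n → k × k) → k} (hψ : Fun a b ψ) (c : List (Ed (Fin n) k)) (μ : k) :
    Gam ω a b ψ c (-μ) = -Gam ω a b ψ c μ := by
  have : Nonempty (Fin n) := ⟨⟨0, Nat.pos_of_ne_zero hn⟩⟩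
  have hy : (vec c).y (-μ) = -(vec c).y μ := by
    unfold V4.y
    rw [Odd.neg_pow (by decide : Odd 3), div_neg]
  have hd : rho a c / -μ = -(rho a c / μ) := div_neg _
  have hf : (vec c).flat (rho a c) (-μ) = (vec c).flat (rho a c) μ := by
    unfold V4.flat
    rw [hd, hy]
    ring
  unfold Gam
  rw [hd, hf, gf_neg hω hψ, gf_neg hω hψ]
  ring

/-- The value of the sum of the two functions at a place over `s = 0`. -/
theorem Fl2.val0 (H : Chn D T V₀ ξ η c μ) (hN : 1 ≤ W.N) {K : Type u} [Field K]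
    [Algebra k K] (F : Fl2 C K) {ω : k} (hω : ω ^ 2 + ω + 1 = 0) (hn : n ≠ 0)
    {Ψ : (W.surface.pow n).Pt → k} (h : Odd W n Ψ) {σ : Equiv.Perm (Fin n)}
    (hσ : c.map (fun e => e.i) = List.ofFn σ) (w : Place k K) (hs : IsRes w F.s 0) :
    ∃ ε : k, (ε = 1 ∨ ε = -1) ∧ IsRes w F.y (ε * η) ∧ (C.c = 0 → ε = 1) ∧
      KF D ω Ψ F.hK F.t (zof F.d) F.v w + KF D ω Ψ F.hK F.t (zof F.d') F.v' w =
        ε * ((((Equiv.Perm.sign σ : ℤˣ) : ℤ) : k) * Gam ω (fun i => D.a (T i))
          (fun i => D.b (T i)) (psT D Ψ T) c μ) := by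
  have : CharZero K := charZero_of_injective_algebraMap (algebraMap k K).injective
  obtain ⟨π, κ₀, ε, m, hw⟩ := exists_atW C hN H.ha F.toFl1 w hs
  obtain ⟨c₁, h1⟩ := exists_atK H hw.hκ hw.hε hw.hm hw.hξ
  obtain ⟨d, d', hdl, hdl', fd, fd', vd, vd', rd, rd'⟩ := exists_dd H F.toFl1 w hw h1
  have ed : d = F.d := uniq fd F.fd (hdl.trans F.hd.symm) (vd.trans F.vd.symm)
  have ed' : d' = F.d' := uniq fd' F.fd' (hdl'.trans F.hd'.symm) (vd'.trans F.vd'.symm)
  subst ed
  subst ed'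
  have hA : ∏ i, D.a (T i) ≠ 0 := Finset.prod_ne_zero_iff.2 fun i _ => H.ha i
  have hψ := fun_psT D h T
  -- the values of the products
  have hkap : kap c₁ = ∏ i, κ₀ i := by
    obtain ⟨ζ, hζ⟩ := ofFn_of_lab53 h1.hl
    rw [hζ]
    unfold kap
    rw [List.map_ofFn, List.prod_ofFn]
    rfl
  have hAres : IsRes w F.A (∏ i, D.a (T i)) := by
    have h2 : IsRes w (∏ i, D.a (F.t i)) (∏ i, D.a (T (π i))) :=
      IsRes.prod' _ fun i _ => isRes_a53 D (hw.ht i)
    rw [Equiv.prod_comp π (fun i => D.a (T i))] at h2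
    exact h2
  have hρres : IsRes w F.ρ (rho (fun i => D.a (T i)) c₁) := by
    unfold rho
    rw [hkap]
    exact IsRes.div' F.hK (IsRes.prod' _ fun i _ => hw.hκ₀ i) hAres hA
  have hp : IsRes w (F.ρ / F.μ) (rho (fun i => D.a (T i)) c₁ / m) :=
    IsRes.div' F.hK hρres hw.hμm hw.hm
  -- the two functions
  have e1 := val_core53 D hω F.hK h hw.ht F.hd h1.hl hw.hκ h1.hf rd F.hv F.pv hp
  have e2 := val_core53 D hω F.hK h hw.ht F.hd'
    (c₁ := flc D T c₁ m) ((fam_lab53 c₁ _).trans h1.hl) hw.hκ h1.hf' rd' F.hv' F.pv' hw.hμm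
  refine ⟨ε, hw.hε, hw.hy, hw.hyc, ?_⟩
  rw [e1, e2, ← mul_add]
  have e3 : GF ω (fun i => D.a (T i)) (fun i => D.b (T i)) (psT D Ψ T) (zof c₁)
      (rho (fun i => D.a (T i)) c₁ / m) +
      GF ω (fun i => D.a (T i)) (fun i => D.b (T i)) (psT D Ψ T) (zof (flc D T c₁ m)) m =
      Gam ω (fun i => D.a (T i)) (fun i => D.b (T i)) (psT D Ψ T) c₁ m := rfl
  rw [e3]
  -- comparison with the chain `c`
  have hε2 : ε ^ 2 = 1 := by
    rcases hw.hε with r | r <;> rw [r] <;> ring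
  have hε0 : ε ≠ 0 := by
    rcases hw.hε with r | r <;> rw [r] <;> norm_num
  have hεμ : ε * μ ≠ 0 := mul_ne_zero hε0 H.hμ
  have hy1 : (vec c).y (ε * μ) = ε * η := by
    rw [← H.hη, ← H.hvec]
    unfold V4.y
    rcases hw.hε with r | r <;> rw [r]
    · rw [one_mul, one_mul]
    · rw [neg_one_mul, neg_one_mul, Odd.neg_pow (by decide : Odd 3), div_neg]
  have hρ2 := (rho_sq H.ch H.ha).1
  have hflat : (vec c).flat (rho (fun i => D.a (T i)) c) (ε * μ) =
      V₀.flat (rho (fun i => D.a (T i)) c) μ := by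
    rw [← H.hvec]
    unfold V4.flat V4.y
    rcases hw.hε with r | r <;> rw [r]
    · rw [one_mul]
    · rw [neg_one_mul, Odd.neg_pow (by decide : Odd 3), div_neg, div_neg]
      ring
  have hρ0 : rho (fun i => D.a (T i)) c ≠ 0 := by
    intro h0
    rw [h0] at hρ2
    apply hA
    rw [← hρ2]
    ring
  have hflat0 : V₀.flat (rho (fun i => D.a (T i)) c) μ ≠ 0 := by
    have hm2 : rho (fun i => D.a (T i)) c / μ ≠ 0 := div_ne_zero hρ0 H.hμ
    have hξ2 : xi (∏ i, D.a (T i)) (rho (fun i => D.a (T i)) c / μ) = ξ := by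
      rw [← H.hξ]
      unfold xi
      have hμ := H.hμ
      rw [div_pow, hρ2]
      field_simp
      ring
    obtain ⟨c₂, h2⟩ := exists_atK H (ε := 1) hw.hκ (Or.inl rfl) hm2 hξ2
    have h3 := h2.hx
    unfold xm at h3
    unfold V4.flat
    rw [H.hη]
    rw [one_mul, div_div] at h3
    exact h3
  have hfc : FineC c := H.good c Relation.ReflTransGen.refl
  have hg : ∀ x₁ : k, (x₁ = 1 ∨ x₁ = (vec c).flat (rho (fun i => D.a (T i)) c) (ε * μ)) →
      Good (fam c x₁) ∧ Good (fam c (x₁ * ((vec (fam c x₁)).z' / (vec (fam c x₁)).z))) := by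
    intro x₁ hx₁
    have hx4 : Four V₀ (rho (fun i => D.a (T i)) c) μ x₁ := by
      rcases hx₁ with r | r
      · exact Or.inl r
      · rw [hflat] at r
        exact Or.inr (Or.inr (Or.inl r))
    have hx0 : x₁ ≠ 0 := by
      rcases hx₁ with r | r
      · rw [r]; exact one_ne_zero
      · rw [r, hflat]; exact hflat0
    have hg1 := H.four x₁ hx4
    refine ⟨hg1, ?_⟩
    apply H.four
    have hv1 := vec_fam hfc hx0 (hg1 _ Relation.ReflTransGen.refl)
    rw [hv1, tor_z, tor_z', H.hvec]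
    have hz := H.hz
    rcases hx₁ with r | r
    · right; left
      rw [r]
      simp
    · right; right; right
      rw [hflat] at r
      rw [r]
      have hf0 := hflat0
      field_simp
  have hσ' : c₁.map (fun e => e.i) = List.ofFn π := by
    obtain ⟨ζ, hζ⟩ := ofFn_of_lab53 h1.hl
    rw [hζ, List.map_ofFn]
    rfl
  have e4 := gam_eq (a := fun i => D.a (T i)) (b := fun i => D.b (T i)) (ψ := psT D Ψ T) hω hn hψ
    H.ch h1.ch h1.hf (x := xm V₀ η ε m) (μ := ε * μ) (μ' := m) h1.hx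
    (by rw [H.hvec]; exact h1.hv) hεμ hw.hm
    (by
      rw [mul_pow, H.hN, H.hvec]
      have : ε ^ 6 = (ε ^ 2) ^ 3 := by ring
      rw [this, hε2]; ring)
    h1.hN.symm
    (by
      rw [hw.hξ, ← H.hξ]
      unfold xi
      rw [mul_pow, hε2, one_mul])
    (by rw [hy1, h1.hy]) (by rw [H.hvec]; exact H.hz) hg hσ hσ'
  rw [e4]
  rcases hw.hε with r | r
  · rw [r, one_mul, one_mul]
  · rw [r, neg_one_mul, gam_neg hω hn hψ]
    ring

end Pool.Agent.Helper83.VN
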