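import Mathlib
import Pool.Agent.Helper83.VN.Fld

/-!
# Block VN-BAD: finiteness of the exceptional set, finiteness of sets of places

`bad_fin`: put `Z = x V.z`, `b = V.Q.eval 4`, `κ = ρ A`, `σ = (b + κ) / 2`, `τ = (b - κ) / 2`, so
`σ τ = V.z V.z'`, `σ, τ, κ ≠ 0`. `N = (V.tor x).N = (Z + σ) (Z + τ) / Z`, so `μ ≠ 0` gives
`Z + σ, Z + τ ≠ 0`, and `(V.tor x).z * (V.tor x).flat ρ μ = - τ (Z + σ) / (Z + τ)` (it does not
depend on the choice of `μ`, as `ρ ^ 3 = κ` and `(V.tor x).y μ = (Z - σ τ / Z) / μ ^ 3`). The four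
values of `x * y` are `x`, `V.z' / (x V.z)`, `- τ (Z + σ) / ((Z + τ) V.z)` and
`V.z' / (x (flat) V.z) = - σ (Z + τ) / ((Z + σ) V.z)`; each of these is an injective function of `x`
(where defined), so the preimage of a finite set is finite.

`fin_pl`: the places where `τ` has a pole or one of finitely many values: `finite_support_ord` for
`τ`, `τ - x`.
-/

set_option linter.unusedSectionVars false

namespace Pool.Agent.Helper83.VN

open VC VF Function
open Pool.Agent.Helper51.EW Pool.Agent.Helper51.VN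

universe u

variable {k : Type u} [Field k] [IsAlgClosed k] [CharZero k]

lemma bad_flat {V : V4 k} {A ρ b σ τ x μ : k} (hρ : ρ ^ 2 = A) (hz : V.z ≠ 0) (hx : x ≠ 0)
    (hb : V.Q.eval 4 = b) (hσ : σ = (b + ρ * A) / 2) (hτ : τ = (b - ρ * A) / 2)
    (hst : V.z * V.z' = σ * τ) (hμ : μ ≠ 0) (hN : μ ^ 6 = (V.tor x).N) :
    x * V.z + σ ≠ 0 ∧ x * V.z + τ ≠ 0 ∧
      (V.tor x).flat ρ μ = -τ * (x * V.z + σ) / (x * V.z * (x * V.z + τ)) := by
  have h2 : (2 : k) ≠ 0 := two_ne_zero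
  have hZ : x * V.z ≠ 0 := mul_ne_zero hx hz
  have hW : V.z' / x = σ * τ / (x * V.z) := by
    rw [← hst]
    field_simp
  have hNN : μ ^ 6 = (x * V.z + σ) * (x * V.z + τ) / (x * V.z) := by
    rw [hN, N_eq, tor_z, tor_z', tor_Q, hb, hW]
    have e : b = σ + τ := by rw [hσ, hτ]; ring
    rw [e]
    field_simp
    ring
  have hμ6 : μ ^ 6 ≠ 0 := pow_ne_zero 6 hμ
  have h3 : x * V.z + σ ≠ 0 := by
    intro h
    rw [h, zero_mul, zero_div] at hNN
    exact hμ6 hNN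
  have h4 : x * V.z + τ ≠ 0 := by
    intro h
    rw [h, mul_zero, zero_div] at hNN
    exact hμ6 hNN
  refine ⟨h3, h4, ?_⟩
  have e1 : (ρ / μ) ^ 6 = (ρ * A) ^ 2 / μ ^ 6 := by
    rw [div_pow, ← hρ]
    ring
  have e2 : (ρ / μ) ^ 3 * ((x * V.z - σ * τ / (x * V.z)) / μ ^ 3) =
      ρ * A * (x * V.z - σ * τ / (x * V.z)) / μ ^ 6 := by
    rw [← hρ]
    field_simp
  unfold V4.flat V4.y
  rw [tor_z, tor_z', tor_Q, hb, hW, e1, e2, hNN]
  have e3 : ρ * A = σ - τ := by rw [hσ, hτ]; ring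
  have e4 : b = σ + τ := by rw [hσ, hτ]; ring
  rw [e3, e4]
  field_simp
  ring

theorem bad_fin {V : V4 k} {A ρ : k} (hA : A ≠ 0) (hρ : ρ ^ 2 = A) (hz : V.z ≠ 0)
    (hz' : V.z' ≠ 0) (hzz : 4 * V.z * V.z' = V.Q.eval 4 ^ 2 - A ^ 3) {B : Set k} (hB : B.Finite) :
    {x : k | x = 0 ∨ ∃ μ y, μ ≠ 0 ∧ μ ^ 6 = (V.tor x).N ∧ Four (V.tor x) ρ μ y ∧
      x * y ∈ B}.Finite := by
  set b := V.Q.eval 4 with hb
  obtain ⟨σ, hσ⟩ : ∃ σ, σ = (b + ρ * A) / 2 := ⟨_, rfl⟩
  obtain ⟨τ, hτ⟩ : ∃ τ, τ = (b - ρ * A) / 2 := ⟨_, rfl⟩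
  have h2 : (2 : k) ≠ 0 := two_ne_zero
  have hρ0 : ρ ≠ 0 := by
    rintro rfl
    apply hA
    rw [← hρ]; ring
  have hst : V.z * V.z' = σ * τ := by
    have h4 : (4 : k) ≠ 0 := by norm_num
    have h5 : 4 * (V.z * V.z') = 4 * (σ * τ) := by
      rw [← mul_assoc, hzz, hσ, hτ, ← hρ]
      field_simp
      ring
    exact mul_left_cancel₀ h4 h5
  have hσ0 : σ ≠ 0 := by
    rintro rfl
    rw [zero_mul] at hst
    exact (mul_ne_zero hz hz') hst
  have hτ0 : τ ≠ 0 := by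
    rintro rfl
    rw [mul_zero] at hst
    exact (mul_ne_zero hz hz') hst
  have hne : σ - τ ≠ 0 := by
    have : σ - τ = ρ * A := by rw [hσ, hτ]; ring
    rw [this]
    exact mul_ne_zero hρ0 hA
  refine (((((Set.finite_singleton (0 : k)).union hB).union
    (hB.image fun v => V.z' / (v * V.z))).union
    (hB.image fun v => -τ * (σ + v * V.z) / (v * V.z + τ) / V.z)).union
    (hB.image fun v => -σ * (τ + v * V.z) / (v * V.z + σ) / V.z)).subset ?_
  rintro x hx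
  rcases eq_or_ne x 0 with rfl | hx0
  · exact Or.inl (Or.inl (Or.inl (Or.inl rfl)))
  rcases hx with hx | ⟨μ, y, hμ, hN, hy, hB⟩
  · exact absurd hx hx0
  obtain ⟨h3, h4, h5⟩ := bad_flat hρ hz hx0 hb.symm hσ hτ hst hμ hN
  have hZ : x * V.z ≠ 0 := mul_ne_zero hx0 hz
  rcases hy with hy | hy | hy | hy
  · rw [hy, mul_one] at hB
    exact Or.inl (Or.inl (Or.inl (Or.inr hB)))
  · refine Or.inl (Or.inl (Or.inr ⟨x * y, hB, ?_⟩))
    simp only
    rw [hy, tor_z, tor_z']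
    field_simp
  · refine Or.inl (Or.inr ⟨x * y, hB, ?_⟩)
    simp only
    have e : x * y * V.z = -τ * (x * V.z + σ) / (x * V.z + τ) := by
      rw [hy, h5]
      field_simp
    rw [e]
    have e1 : -τ * (x * V.z + σ) / (x * V.z + τ) + τ = -τ * (σ - τ) / (x * V.z + τ) := by
      field_simp
      ring
    have e2 : σ + -τ * (x * V.z + σ) / (x * V.z + τ) = x * V.z * (σ - τ) / (x * V.z + τ) := by
      field_simp
      ring
    rw [e1, e2]
    field_simp
  · refine Or.inr ⟨x * y, hB, ?_⟩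
    simp only
    have e : x * y * V.z = -σ * (x * V.z + τ) / (x * V.z + σ) := by
      rw [hy, h5, tor_z, tor_z']
      have : V.z' = σ * τ / V.z := by
        rw [← hst]
        field_simp
      rw [this]
      field_simp
    rw [e]
    have e1 : -σ * (x * V.z + τ) / (x * V.z + σ) + σ = σ * (σ - τ) / (x * V.z + σ) := by
      field_simp
      ring
    have e2 : τ + -σ * (x * V.z + τ) / (x * V.z + σ) = -(x * V.z) * (σ - τ) / (x * V.z + σ) := by
      field_simp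
      ring
    rw [e1, e2]
    field_simp

theorem fin_pl {K : Type u} [Field K] [Algebra k K] (hK : IsFunctionField k K) {τ : K}
    (hτ : Transcendental k τ) {B : Set k} (hB : B.Finite) :
    {w : Place k K | τ ∉ w.ring ∨ ∃ x ∈ B, IsRes w τ x}.Finite := by
  have h0 : ∀ x : k, τ - algebraMap k K x ≠ 0 := by
    intro x h
    apply hτ
    rw [sub_eq_zero.mp h]
    exact isAlgebraic_algebraMap x
  have hτ0 : τ ≠ 0 := by
    have := h0 0
    rwa [map_zero, sub_zero] at this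
  refine ((finite_support_ord hK hτ0).union
    (hB.biUnion fun x _ => finite_support_ord hK (h0 x))).subset ?_
  rintro w (hw | ⟨x, hx, hw⟩)
  · left
    rw [Set.mem_ofPred_eq]
    intro h
    exact hw ((ord_nonneg_iff hK w hτ0).mp h.ge)
  · right
    rw [Set.mem_iUnion₂]
    refine ⟨x, hx, ?_⟩
    rw [Set.mem_ofPred_eq]
    exact ((ord_pos_iff hK w (h0 x)).mpr hw).ne'

end Pool.Agent.Helper83.VN
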