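import Mathlib
import Pool.Agent.Helper51.EW.Final
import Pool.Agent.Helper51.VN.Fun
import Pool.Agent.Helper83.VF.Kill

/-!
# Block VN-MNB: the trivial fibration

`red_const`: if `W'.N = 0` (so `A'`, `B'` are constant) `Ψ'` is constant along the curves
`u ↦ (.., (u; x, y, 1), ..)` (all other components fixed), and zero if `l (u) = 0`; so it vanishes
(`n ≥ 1`).
-/

set_option linter.unusedSectionVars false

namespace Pool.Agent.Helper83.VN

open VC VF Function
open Pool.Agent.Helper51.EW Pool.Agent.Helper51.VN

universe u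

variable {k : Type u} [Field k] [IsAlgClosed k] [CharZero k]

private lemma mnb_lin {l : MvPolynomial (Fin 2) k} (hl : l.IsHomogeneous 1) :
    ∃ a b : k, ∀ u : Fin 2 → k, MvPolynomial.eval u l = a * u 0 + b * u 1 := by
  classical
  refine ⟨l.coeff (Finsupp.single 0 1), l.coeff (Finsupp.single 1 1), fun u => ?_⟩
  have hs : l.support ⊆ {Finsupp.single 0 1, Finsupp.single 1 1} := by
    intro d hd
    have h1 := hl (MvPolynomial.mem_support_iff.mp hd)
    rw [Finsupp.weight_apply, Finsupp.sum_fintype _ _ (fun i => by simp), Fin.sum_univ_two] at h1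
    simp only [Pi.one_apply, smul_eq_mul, mul_one] at h1
    rw [Finset.mem_insert, Finset.mem_singleton]
    rcases Nat.eq_zero_or_pos (d 0) with h0 | h0
    · right
      ext i
      fin_cases i
      · simpa using h0
      · have : d 1 = 1 := by omega
        simpa using this
    · left
      ext i
      fin_cases i
      · have : d 0 = 1 := by omega
        simpa using this
      · have : d 1 = 0 := by omega
        simpa using this
  have hne : (Finsupp.single (0 : Fin 2) 1 : Fin 2 →₀ ℕ) ≠ Finsupp.single 1 1 := by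
    intro h
    have := DFunLike.congr_fun h 0
    simp at this
  rw [MvPolynomial.eval_eq', Finset.sum_subset hs, Finset.sum_pair hne]
  · simp [Fin.prod_univ_two]
  · intro d _ hd
    rw [MvPolynomial.notMem_support_iff.mp hd, zero_mul]

theorem red_const {W' : Wei k} {l : MvPolynomial (Fin 2) k} (hl : l.IsHomogeneous 1)
    (hl0 : l ≠ 0) (hN : W'.N = 0) {n : ℕ} (hn : n ≠ 0) {Ψ' : (W'.surface.pow n).Pt → k}
    (h : Odd W' n Ψ')
    (h0 : ∀ (p : Fin n → WPt W' k) (c : Fin n → Coord W' k) (i : Fin n),
      (∀ j, p j = WPt.mk (c j)) → MvPolynomial.eval (c i).u l = 0 → Ψ' p = 0)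
    (p : (W'.surface.pow n).Pt) : Ψ' p = 0 := by
  classical
  obtain ⟨i⟩ : Nonempty (Fin n) := ⟨⟨0, Nat.pos_of_ne_zero hn⟩⟩
  obtain ⟨A0, hA0⟩ : ∃ A0, W'.A = MvPolynomial.C A0 := by
    have hA := W'.hA
    rw [hN, mul_zero] at hA
    exact ⟨_, MvPolynomial.totalDegree_eq_zero_iff_eq_C.mp
      (Nat.le_zero.mp hA.totalDegree_le)⟩
  obtain ⟨B0, hB0⟩ : ∃ B0, W'.B = MvPolynomial.C B0 := by
    have hB := W'.hB
    rw [hN, mul_zero] at hB
    exact ⟨_, MvPolynomial.totalDegree_eq_zero_iff_eq_C.mp
      (Nat.le_zero.mp hB.totalDegree_le)⟩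
  choose c hc using fun j => exists_mk (p j)
  obtain ⟨a, b, hab⟩ := mnb_lin hl
  by_cases hu : MvPolynomial.eval (c i).u l = 0
  · exact h0 p c i hc hu
  obtain ⟨u0, hu0, hlu0⟩ : ∃ u0 : Fin 2 → k, u0 ≠ 0 ∧ MvPolynomial.eval u0 l = 0 := by
    by_cases hz : a = 0 ∧ b = 0
    · exact ⟨![1, 0], fun e => one_ne_zero (congrFun e 0), by rw [hab, hz.1, hz.2]; ring⟩
    · refine ⟨![-b, a], fun e => hz ⟨?_, ?_⟩, ?_⟩
      · exact congrFun e 1
      · exact neg_eq_zero.mp (congrFun e 0)
      · rw [hab]
        change a * -b + b * a = 0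
        ring
  set u := (c i).u with hudef
  have hind : ∀ s t : k, s * u 0 + t * u0 0 = 0 → s * u 1 + t * u0 1 = 0 → s = 0 ∧ t = 0 := by
    intro s t e0 e1
    have hs : s = 0 := by
      have : s * MvPolynomial.eval u l + t * MvPolynomial.eval u0 l = 0 := by
        rw [hab, hab]
        linear_combination a * e0 + b * e1
      rw [hlu0, mul_zero, add_zero] at this
      exact (mul_eq_zero.mp this).resolve_right hu
    refine ⟨hs, ?_⟩
    rw [hs, zero_mul, zero_add] at e0 e1
    by_contra ht
    apply hu0
    funext j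
    fin_cases j
    · exact (mul_eq_zero.mp e0).resolve_left ht
    · exact (mul_eq_zero.mp e1).resolve_left ht
  have hdet : u 0 * u0 1 - u 1 * u0 0 ≠ 0 := by
    intro hd
    have h1 := hind (u0 1) (-(u 1)) (by linear_combination hd) (by ring)
    have h2 := hind (u0 0) (-(u 0)) (by ring) (by linear_combination -hd)
    apply hu0
    funext j
    fin_cases j
    · exact h2.1
    · exact h1.1
  have hK := ff_ratFunc (k := k)
  set τ : RatFunc k := RatFunc.X with hτ
  have htr : Transcendental k τ := transcendental_ratX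
  -- the curve
  have hcu : (fun j => (1 - τ) * algebraMap k (RatFunc k) (u j) +
      τ * algebraMap k (RatFunc k) (u0 j)) ≠ 0 := by
    intro e
    have e0 := congrFun e 0
    have e1 := congrFun e 1
    simp only [Pi.zero_apply] at e0 e1
    have h1 : τ * algebraMap k (RatFunc k) (u 0 * u0 1 - u 1 * u0 0) = 0 := by
      rw [map_sub, map_mul, map_mul]
      linear_combination algebraMap k (RatFunc k) (u 0) * e1 - algebraMap k (RatFunc k) (u 1) * e0
    rcases mul_eq_zero.mp h1 with h1 | h1
    · exact htr (by rw [h1]; exact isAlgebraic_zero)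
    · exact hdet ((_root_.map_eq_zero _).mp h1)
  have haev : ∀ (K : Type u) [Field K] [Algebra k K] (x : Fin 2 → K),
      MvPolynomial.aeval x W'.A = algebraMap k K A0 ∧
      MvPolynomial.aeval x W'.B = algebraMap k K B0 := by
    intro K _ _ x
    rw [hA0, hB0, MvPolynomial.algHom_C, MvPolynomial.algHom_C]
    exact ⟨rfl, rfl⟩
  have heq : ∀ (K : Type u) [Field K] [Algebra k K] (x : Fin 2 → K),
      algebraMap k K ((c i).w 1) ^ 2 * algebraMap k K ((c i).w 2) =
      algebraMap k K ((c i).w 0) ^ 3 + MvPolynomial.aeval x W'.A * algebraMap k K ((c i).w 0) *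
        algebraMap k K ((c i).w 2) ^ 2 +
      MvPolynomial.aeval x W'.B * algebraMap k K ((c i).w 2) ^ 3 := by
    intro K _ _ x
    rw [(haev K x).1, (haev K x).2]
    have := congrArg (algebraMap k K) (c i).eqn
    rw [(haev k _).1, (haev k _).2] at this
    simpa only [map_mul, map_pow, map_add, Algebra.algebraMap_self, RingHom.id_apply] using this
  let cur : Coord W' (RatFunc k) :=
    ⟨fun j => (1 - τ) * algebraMap k (RatFunc k) (u j) + τ * algebraMap k (RatFunc k) (u0 j),
      fun j => algebraMap k (RatFunc k) ((c i).w j), hcu, fun e => (c i).w_ne (by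
        funext j
        exact (_root_.map_eq_zero _).mp (congrFun e j)), heq _ _⟩
  let fin : Coord W' k :=
    ⟨u0, (c i).w, hu0, (c i).w_ne, by simpa using heq k u0⟩
  have hone := h.one p i
  have key := path hone.1 hK (WPt.mk cur) htr (a := 0) (b := 1) zero_ne_one
    (A := Ψ' p) (B := 0) ?_ ?_
  · exact key
  · intro v hv
    rw [eval_eq hK v cur (c i) ?_ ?_, ← hc i, update_eq_self]
    · intro j
      have h1 := (((isRes_one (v := v)).sub hv).mul (isRes_const (v := v) (u j))).add
        (hv.mul (isRes_const (v := v) (u0 j)))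
      rw [sub_zero, one_mul, zero_mul, add_zero] at h1
      exact h1
    · intro j
      exact isRes_const _
  · intro v hv
    rw [eval_eq hK v cur fin ?_ ?_]
    · refine h0 _ (update c i fin) i ?_ ?_
      · intro j
        by_cases hj : j = i
        · subst hj
          rw [update_self, update_self]
        · rw [update_of_ne hj, update_of_ne hj]
          exact hc j
      · rw [update_self]
        exact hlu0
    · intro j
      have h1 := (((isRes_one (v := v)).sub hv).mul (isRes_const (v := v) (u j))).add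
        (hv.mul (isRes_const (v := v) (u0 j)))
      rw [sub_self, one_mul, zero_mul, zero_add] at h1
      exact h1
    · intro j
      exact isRes_const _

end Pool.Agent.Helper83.VN
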