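import Mathlib
import Pool.Agent.Helper83.VN.Ctc
import Pool.Agent.Helper71.SE.Zero

/-!
# Block VN-CTB: the contact data exist

Template: `Helper83/KV/Contact.lean` (`contact`). Index set of the unknowns
`Ix = Fin n ⊕ ((Sl × Fin (6 N)) ⊕ (Fin (2 N) ⊕ Fin (3 N)))`, `Sl = Fin ((n + 1) / 2) ⊕
Fin ((n + 1) / 2) ⊕ Fin (n / 2 + 1) ⊕ Fin (n / 2)` (the coefficients of `U, U', Q, R`; `Sl` has
`2 n + 1` elements). For `x : Ix → A` (`A` a commutative `k`-algebra) let `q = ∑ x i X ^ i`, the
coefficients of `U, ..` be the constants of `V₀` plus `pol (x ..)` (`KV.pol`, polynomials in `s` without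
constant term, of degree `≤ 6 N`), `Xp = ξ + pol`, `Op = η + pol`. Choose `n` different nonzero
`ϖ j ∈ k` (e.g. `ϖ j = j + 1`) and let (in `A[X]`, `X = s`)
* `E j = Q (ϖ j) ^ 2 - ϖ j U (ϖ j) U' (ϖ j) - ϖ j (ϖ j - 4) R (ϖ j) ^ 2 -
  nm (be ^ 2 - (ϖ j / 4) (be ^ 2 - al ^ 3)) T x`, of degree `≤ 12 N`,
* `E' = Q (0) - nm be T x`, of degree `≤ 6 N`,
* `E'' = Op ^ 2 - Xp ^ 3 + 3 nm al T x * Xp + 2 Q (4)`, of degree `≤ 6 N`.
Equations: the coefficients of `s ^ m` of `E j` (`1 ≤ m ≤ 12 N`), of `E'` (`1 ≤ m ≤ 6 N`), of `E''`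
(`1 ≤ m ≤ 6 N - 1`), in `A = MvPolynomial Ix k`. They have no constant term: for `x = 0` all the
polynomials are constant in `s` (`nm_const`). The number of unknowns minus the number of
equations is `n - N + 1 ≥ 1`. `Helper71.SE.exists_common_zero` gives a nonzero solution `x`. For
this solution `E j = 0`, `E' = 0`, `E'' = c s ^ (6 N)` (the constant terms vanish by the hypotheses,
`nm_zero`). With `nm_val` these are the identities over every field `K`: `form` is an identity
of polynomials of degree `≤ n` which holds at `0` (where it is the square of `Q0`) and at the `ϖ j`.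
-/

set_option linter.unusedSectionVars false

namespace Pool.Agent.Helper83.VN

open VC VF Function Polynomial
open Pool.Agent.Helper51.EW

universe u

section aux46

variable {k : Type u} [Field k]

/-- A polynomial without constant term. -/
private noncomputable def pl46 {A : Type*} [CommRing A] {n : ℕ} (g : Fin n → A) : A[X] :=
  ∑ i : Fin n, C (g i) * X ^ ((i : ℕ) + 1)

private lemma pl46_degree {A : Type*} [CommRing A] {n : ℕ} (g : Fin n → A) :
    (pl46 g).natDegree ≤ n := by
  unfold pl46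
  refine natDegree_sum_le_of_forall_le _ _ fun i _ => ?_
  refine (natDegree_C_mul_X_pow_le _ _).trans ?_
  omega

private lemma pl46_coeff {A : Type*} [CommRing A] {n : ℕ} (g : Fin n → A) (j : Fin n) :
    (pl46 g).coeff ((j : ℕ) + 1) = g j := by
  unfold pl46
  rw [finsetSum_coeff, Finset.sum_eq_single j]
  · simp
  · intro i _ hij
    rw [coeff_C_mul, coeff_X_pow, if_neg, mul_zero]
    intro h
    apply hij
    apply Fin.ext
    omega
  · intro h
    exact absurd (Finset.mem_univ j) h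

private lemma pl46_eval {A : Type*} [CommRing A] {n : ℕ} (g : Fin n → A) :
    (pl46 g).eval 0 = 0 := by
  unfold pl46
  rw [eval_finsetSum]
  apply Finset.sum_eq_zero
  intro i _
  simp

private lemma pl46_zero {A : Type*} [CommRing A] {n : ℕ} (g : Fin n → A) (h : pl46 g = 0)
    (j : Fin n) : g j = 0 := by
  rw [← pl46_coeff g j, h, coeff_zero]

private lemma pl46_of_zero {A : Type*} [CommRing A] {n : ℕ} :
    pl46 (fun _ : Fin n => (0 : A)) = 0 := by
  unfold pl46
  simp

private lemma pl46_map {A B : Type*} [CommRing A] [CommRing B] {n : ℕ} (f : A →+* B)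
    (g : Fin n → A) : (pl46 g).map f = pl46 (fun i => f (g i)) := by
  unfold pl46
  rw [Polynomial.map_sum]
  simp

/-- a coefficient -/
private noncomputable def cf46 {A : Type*} [CommRing A] [Algebra k A] {M : ℕ} (p : k[X]) (i : ℕ)
    (g : Fin M → A) : A[X] := C (algebraMap k A (p.coeff i)) + pl46 g

private lemma cf46_degree {A : Type*} [CommRing A] [Algebra k A] {M : ℕ} (p : k[X]) (i : ℕ)
    (g : Fin M → A) : (cf46 p i g).natDegree ≤ M := by
  unfold cf46
  refine (natDegree_add_le _ _).trans (max_le ?_ (pl46_degree _))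
  rw [natDegree_C]
  exact Nat.zero_le _

private lemma cf46_eval {A : Type*} [CommRing A] [Algebra k A] {M : ℕ} (p : k[X]) (i : ℕ)
    (g : Fin M → A) : (cf46 p i g).eval 0 = algebraMap k A (p.coeff i) := by
  unfold cf46
  rw [eval_add, eval_C, pl46_eval, add_zero]

private lemma cf46_map {A B : Type*} [CommRing A] [Algebra k A] [CommRing B] [Algebra k B] {M : ℕ}
    (f : A →ₐ[k] B) (p : k[X]) (i : ℕ) (g : Fin M → A) :
    (cf46 p i g).map f.toRingHom = cf46 p i (fun j => f (g j)) := by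
  unfold cf46
  rw [Polynomial.map_add, Polynomial.map_C, pl46_map]
  congr 2
  exact f.commutes _

/-- the value at `c ∈ k` -/
private noncomputable def ev46 {A : Type*} [CommRing A] [Algebra k A] {m M : ℕ} (p : k[X])
    (g : Fin m → Fin M → A) (c : k) : A[X] :=
  ∑ i : Fin m, cf46 p i (g i) * C (algebraMap k A (c ^ (i : ℕ)))

private lemma ev46_map {A B : Type*} [CommRing A] [Algebra k A] [CommRing B] [Algebra k B]
    {m M : ℕ} (f : A →ₐ[k] B) (p : k[X]) (g : Fin m → Fin M → A) (c : k) :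
    (ev46 p g c).map f.toRingHom = ev46 p (fun i j => f (g i j)) c := by
  unfold ev46
  rw [Polynomial.map_sum]
  refine Finset.sum_congr rfl fun i _ => ?_
  rw [Polynomial.map_mul, cf46_map, Polynomial.map_C]
  congr 2
  exact f.commutes _

private lemma ev46_degree {A : Type*} [CommRing A] [Algebra k A] {m M : ℕ} (p : k[X])
    (g : Fin m → Fin M → A) (c : k) : (ev46 p g c).natDegree ≤ M := by
  unfold ev46
  refine natDegree_sum_le_of_forall_le _ _ fun i _ => ?_
  exact (natDegree_mul_C_le _ _).trans (cf46_degree _ _ _)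

private lemma rep46 {A : Type*} [CommRing A] {m : ℕ} {p : A[X]} (hp : ∀ j, m ≤ j → p.coeff j = 0) :
    p = ∑ i : Fin m, C (p.coeff i) * X ^ (i : ℕ) := by
  ext j
  rw [finsetSum_coeff]
  by_cases hj : j < m
  · rw [Finset.sum_eq_single ⟨j, hj⟩]
    · simp
    · intro i _ hij
      rw [coeff_C_mul, coeff_X_pow, if_neg, mul_zero]
      intro h
      apply hij
      apply Fin.ext
      exact h.symm
    · intro h
      exact absurd (Finset.mem_univ _) h
  · rw [hp j (by omega)]
    symm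
    apply Finset.sum_eq_zero
    intro i _
    rw [coeff_C_mul, coeff_X_pow, if_neg, mul_zero]
    have := i.2
    omega

private lemma sc46 {m : ℕ} {p : k[X]} (hp : ∀ j, m ≤ j → p.coeff j = 0) (c : k) :
    ∑ i : Fin m, p.coeff i * c ^ (i : ℕ) = p.eval c := by
  conv_rhs => rw [rep46 hp]
  rw [eval_finsetSum]
  refine Finset.sum_congr rfl fun i _ => ?_
  rw [eval_mul, eval_C, eval_pow, eval_X]

private lemma ev46_eval {A : Type*} [CommRing A] [Algebra k A] {m M : ℕ} {p : k[X]}
    (hp : ∀ j, m ≤ j → p.coeff j = 0) (g : Fin m → Fin M → A) (c : k) :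
    (ev46 p g c).eval 0 = algebraMap k A (p.eval c) := by
  unfold ev46
  rw [eval_finsetSum, ← sc46 hp, map_sum]
  refine Finset.sum_congr rfl fun i _ => ?_
  rw [eval_mul, eval_C, cf46_eval, map_mul]

private lemma ev46_zero {A : Type*} [CommRing A] [Algebra k A] {m M : ℕ} {p : k[X]}
    (hp : ∀ j, m ≤ j → p.coeff j = 0) (c : k) :
    ev46 p (fun (_ : Fin m) (_ : Fin M) => (0 : A)) c = C (algebraMap k A (p.eval c)) := by
  unfold ev46
  rw [← sc46 hp, map_sum, map_sum]
  refine Finset.sum_congr rfl fun i _ => ?_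
  unfold cf46
  rw [pl46_of_zero, add_zero, map_mul, C_mul]

/-- a polynomial over `k[s]` -/
private noncomputable def mk46 {m M : ℕ} (p : k[X]) (g : Fin m → Fin M → k) : k[X][X] :=
  ∑ i : Fin m, C (cf46 p i (g i)) * X ^ (i : ℕ)

private lemma mk46_coeff {m M : ℕ} (p : k[X]) (g : Fin m → Fin M → k) (i : Fin m) :
    (mk46 p g).coeff (i : ℕ) = cf46 p i (g i) := by
  unfold mk46
  rw [finsetSum_coeff, Finset.sum_eq_single i]
  · simp
  · intro i' _ hij
    rw [coeff_C_mul, coeff_X_pow, if_neg, mul_zero]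
    intro h
    exact hij (Fin.ext h.symm)
  · intro h
    exact absurd (Finset.mem_univ _) h

private lemma mk46_coeff' {m M : ℕ} (p : k[X]) (g : Fin m → Fin M → k) (j : ℕ) (hj : m ≤ j) :
    (mk46 p g).coeff j = 0 := by
  unfold mk46
  rw [finsetSum_coeff]
  apply Finset.sum_eq_zero
  intro i _
  rw [coeff_C_mul, coeff_X_pow, if_neg, mul_zero]
  have := i.2
  omega

private lemma mk46_eval {m M : ℕ} (p : k[X]) (g : Fin m → Fin M → k) (c : k) :
    (mk46 p g).eval (C c) = ev46 p g c := by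
  unfold mk46 ev46
  rw [eval_finsetSum]
  refine Finset.sum_congr rfl fun i _ => ?_
  rw [eval_mul, eval_C, eval_pow, eval_X, Algebra.algebraMap_self, RingHom.id_apply, C_pow]

private lemma mk46_map0 {m M : ℕ} {p : k[X]} (hp : ∀ j, m ≤ j → p.coeff j = 0)
    (g : Fin m → Fin M → k) : (mk46 p g).map (evalRingHom 0) = p := by
  conv_rhs => rw [rep46 hp]
  unfold mk46
  rw [Polynomial.map_sum]
  refine Finset.sum_congr rfl fun i _ => ?_
  rw [Polynomial.map_mul, Polynomial.map_C, Polynomial.map_pow, Polynomial.map_X]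
  congr 2
  exact cf46_eval _ _ _

private lemma mk46_inj {m M : ℕ} {p : k[X]} {g : Fin m → Fin M → k} (h : mk46 p g = p.map C)
    (i : Fin m) (j : Fin M) : g i j = 0 := by
  have h1 := congrArg (fun P => coeff P (i : ℕ)) h
  simp only [mk46_coeff, coeff_map] at h1
  unfold cf46 at h1
  rw [Algebra.algebraMap_self, RingHom.id_apply] at h1
  exact pl46_zero _ (add_eq_left.mp h1) j

private lemma mk46_ev {m M : ℕ} (p : k[X]) (g : Fin m → Fin M → k) {K : Type u} [Field K]
    [Algebra k K] (s : K) (c : k) :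
    ((mk46 p g).map (aeval s : k[X] →ₐ[k] K).toRingHom).eval (algebraMap k K c) =
      aeval s (ev46 p g c) := by
  have h1 : algebraMap k K c = (aeval s : k[X] →ₐ[k] K).toRingHom (C c) := by
    change _ = aeval s (C c)
    rw [aeval_C]
  rw [h1, Polynomial.eval_map_apply, mk46_eval]
  rfl

/-- the unknowns -/
private abbrev Ix46 (n N : ℕ) : Type :=
  Fin n ⊕ (((Fin ((n + 1) / 2) ⊕ (Fin ((n + 1) / 2) ⊕ (Fin (n / 2 + 1) ⊕ Fin (n / 2)))) ×
    Fin (6 * N)) ⊕ (Fin (2 * N) ⊕ Fin (3 * N)))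

private lemma card46 (n N : ℕ) :
    Nat.card (Ix46 n N) = n + (2 * n + 1) * (6 * N) + 5 * N := by
  rw [Nat.card_eq_fintype_card]
  simp only [Fintype.card_sum, Fintype.card_prod, Fintype.card_fin]
  have h1 : (n + 1) / 2 + ((n + 1) / 2 + (n / 2 + 1 + n / 2)) = 2 * n + 1 := by omega
  rw [h1]
  ring

section fam

variable {n N : ℕ} {A : Type*}

private def gq46 (x : Ix46 n N → A) : Fin n → A := fun i => x (Sum.inl i)
private def gU46 (x : Ix46 n N → A) : Fin ((n + 1) / 2) → Fin (6 * N) → A :=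
  fun i m => x (Sum.inr (Sum.inl (Sum.inl i, m)))
private def gV46 (x : Ix46 n N → A) : Fin ((n + 1) / 2) → Fin (6 * N) → A :=
  fun i m => x (Sum.inr (Sum.inl (Sum.inr (Sum.inl i), m)))
private def gQ46 (x : Ix46 n N → A) : Fin (n / 2 + 1) → Fin (6 * N) → A :=
  fun i m => x (Sum.inr (Sum.inl (Sum.inr (Sum.inr (Sum.inl i)), m)))
private def gR46 (x : Ix46 n N → A) : Fin (n / 2) → Fin (6 * N) → A :=
  fun i m => x (Sum.inr (Sum.inl (Sum.inr (Sum.inr (Sum.inr i)), m)))
private def gX46 (x : Ix46 n N → A) : Fin (2 * N) → A := fun m => x (Sum.inr (Sum.inr (Sum.inl m)))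
private def gO46 (x : Ix46 n N → A) : Fin (3 * N) → A := fun m => x (Sum.inr (Sum.inr (Sum.inr m)))

end fam

section eqs

variable {W : Wei k} (D : Cor W) {n : ℕ} (T : Fin n → k) (V₀ : V4 k) (ξ η : k)

/-- the polynomial whose norm is the right hand side of `form` at `c` -/
private noncomputable def G46 (c : k) : k[X] := D.be ^ 2 - C (c / 4) * (D.be ^ 2 - D.al ^ 3)

private noncomputable def E1_46 {A : Type*} [CommRing A] [Algebra k A] (c : k)
    (x : Ix46 n W.N → A) : A[X] :=
  ev46 V₀.Q (gQ46 x) c ^ 2 - C (algebraMap k A c) * ev46 V₀.U (gU46 x) c * ev46 V₀.U' (gV46 x) c -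
    C (algebraMap k A (c * (c - 4))) * ev46 V₀.R (gR46 x) c ^ 2 - nm (G46 D c) T (gq46 x)

private noncomputable def E2_46 {A : Type*} [CommRing A] [Algebra k A]
    (x : Ix46 n W.N → A) : A[X] :=
  ev46 V₀.Q (gQ46 x) 0 - nm D.be T (gq46 x)

private noncomputable def E3_46 {A : Type*} [CommRing A] [Algebra k A]
    (x : Ix46 n W.N → A) : A[X] :=
  (C (algebraMap k A η) + pl46 (gO46 x)) ^ 2 - (C (algebraMap k A ξ) + pl46 (gX46 x)) ^ 3 +
    C (algebraMap k A 3) * (nm D.al T (gq46 x) * (C (algebraMap k A ξ) + pl46 (gX46 x))) +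
    C (algebraMap k A 2) * ev46 V₀.Q (gQ46 x) 4

private lemma mapC46 {A B : Type*} [CommRing A] [Algebra k A] [CommRing B] [Algebra k B]
    (f : A →ₐ[k] B) (c : k) :
    (C (algebraMap k A c) : A[X]).map f.toRingHom = C (algebraMap k B c) := by
  rw [Polynomial.map_C]
  congr 1
  exact f.commutes c

private lemma E1_map46 {A B : Type*} [CommRing A] [Algebra k A] [CommRing B] [Algebra k B]
    (f : A →ₐ[k] B) (c : k) (x : Ix46 n W.N → A) :
    (E1_46 D T V₀ c x).map f.toRingHom = E1_46 D T V₀ c (fun i => f (x i)) := by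
  unfold E1_46
  rw [Polynomial.map_sub, Polynomial.map_sub, Polynomial.map_sub, Polynomial.map_pow,
    Polynomial.map_mul, Polynomial.map_mul, Polynomial.map_mul, Polynomial.map_pow, mapC46, mapC46,
    ev46_map, ev46_map, ev46_map, ev46_map, nm_map]
  rfl

private lemma E2_map46 {A B : Type*} [CommRing A] [Algebra k A] [CommRing B] [Algebra k B]
    (f : A →ₐ[k] B) (x : Ix46 n W.N → A) :
    (E2_46 D T V₀ x).map f.toRingHom = E2_46 D T V₀ (fun i => f (x i)) := by
  unfold E2_46
  rw [Polynomial.map_sub, ev46_map, nm_map]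
  rfl

private lemma E3_map46 {A B : Type*} [CommRing A] [Algebra k A] [CommRing B] [Algebra k B]
    (f : A →ₐ[k] B) (x : Ix46 n W.N → A) :
    (E3_46 D T V₀ ξ η x).map f.toRingHom = E3_46 D T V₀ ξ η (fun i => f (x i)) := by
  unfold E3_46
  rw [Polynomial.map_add, Polynomial.map_add, Polynomial.map_sub, Polynomial.map_pow,
    Polynomial.map_pow, Polynomial.map_add, Polynomial.map_add, Polynomial.map_mul,
    Polynomial.map_mul, Polynomial.map_mul, Polynomial.map_add, mapC46, mapC46, mapC46, mapC46,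
    pl46_map, pl46_map, ev46_map, nm_map]
  rfl

private lemma G46_degree (c : k) : (G46 D c).natDegree ≤ 12 * W.N := by
  have h1 := D.dal
  have h2 := D.dbe
  have h3 : (D.be ^ 2).natDegree ≤ 12 * W.N := natDegree_pow_le.trans (by omega)
  have h4 : (D.al ^ 3).natDegree ≤ 12 * W.N := natDegree_pow_le.trans (by omega)
  unfold G46
  refine (natDegree_sub_le _ _).trans (max_le h3 ?_)
  refine (natDegree_C_mul_le _ _).trans ?_
  exact (natDegree_sub_le _ _).trans (max_le h3 h4)

private lemma E1_degree46 {A : Type*} [CommRing A] [Algebra k A] (c : k) (x : Ix46 n W.N → A) :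
    (E1_46 D T V₀ c x).natDegree ≤ 12 * W.N := by
  have hU := ev46_degree V₀.U (gU46 x) c
  have hV := ev46_degree V₀.U' (gV46 x) c
  have hQ := ev46_degree V₀.Q (gQ46 x) c
  have hR := ev46_degree V₀.R (gR46 x) c
  unfold E1_46
  refine (natDegree_sub_le _ _).trans (max_le ?_ ((nm_degree _ _ _).trans (G46_degree D c)))
  refine (natDegree_sub_le _ _).trans (max_le ?_ ?_)
  · refine (natDegree_sub_le _ _).trans (max_le (natDegree_pow_le.trans (by omega)) ?_)
    rw [mul_assoc]
    refine (natDegree_C_mul_le _ _).trans (natDegree_mul_le.trans (by omega))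
  · exact (natDegree_C_mul_le _ _).trans (natDegree_pow_le.trans (by omega))

private lemma E2_degree46 {A : Type*} [CommRing A] [Algebra k A] (x : Ix46 n W.N → A) :
    (E2_46 D T V₀ x).natDegree ≤ 6 * W.N := by
  unfold E2_46
  exact (natDegree_sub_le _ _).trans (max_le (ev46_degree _ _ _) ((nm_degree _ _ _).trans D.dbe))

private lemma E3_degree46 {A : Type*} [CommRing A] [Algebra k A] (x : Ix46 n W.N → A) :
    (E3_46 D T V₀ ξ η x).natDegree ≤ 6 * W.N := by
  have h1 := D.dal
  have hO : (C (algebraMap k A η) + pl46 (gO46 x)).natDegree ≤ 3 * W.N :=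
    (natDegree_add_le _ _).trans (max_le (by rw [natDegree_C]; omega) (pl46_degree _))
  have hX : (C (algebraMap k A ξ) + pl46 (gX46 x)).natDegree ≤ 2 * W.N :=
    (natDegree_add_le _ _).trans (max_le (by rw [natDegree_C]; omega) (pl46_degree _))
  unfold E3_46
  refine (natDegree_add_le _ _).trans (max_le ?_ ?_)
  · refine (natDegree_add_le _ _).trans (max_le ?_ ?_)
    · exact (natDegree_sub_le _ _).trans (max_le (natDegree_pow_le.trans (by omega))
        (natDegree_pow_le.trans (by omega)))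
    · refine (natDegree_C_mul_le _ _).trans (natDegree_mul_le.trans ?_)
      have := nm_degree D.al T (gq46 x)
      omega
  · exact (natDegree_C_mul_le _ _).trans (ev46_degree _ _ _)

end eqs

end aux46

section contact

variable {k : Type u} [Field k] [IsAlgClosed k] [CharZero k] {W : Wei k}

section vals46

variable (D : Cor W) {n : ℕ} (T : Fin n → k) (V₀ : V4 k) (ξ η : k)

private lemma E1_zero46 {A : Type*} [CommRing A] [Algebra k A] (hd : V₀.Deg n) (c : k) :
    E1_46 D T V₀ c (fun _ => (0 : A)) = C (algebraMap k A (V₀.form.eval c -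
      ∏ i, (G46 D c).eval (T i))) := by
  obtain ⟨h1, h2, h3, h4⟩ := hd
  unfold E1_46
  have eQ : ev46 V₀.Q (gQ46 (fun _ : Ix46 n W.N => (0 : A))) c = _ := ev46_zero h3 c
  have eU : ev46 V₀.U (gU46 (fun _ : Ix46 n W.N => (0 : A))) c = _ := ev46_zero h1 c
  have eV : ev46 V₀.U' (gV46 (fun _ : Ix46 n W.N => (0 : A))) c = _ := ev46_zero h2 c
  have eR : ev46 V₀.R (gR46 (fun _ : Ix46 n W.N => (0 : A))) c = _ := ev46_zero h4 c
  have eN : nm (G46 D c) T (gq46 (fun _ : Ix46 n W.N => (0 : A))) = _ := nm_const (G46 D c) T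
  rw [eQ, eU, eV, eR, eN, ← C_pow, ← C_mul, ← C_mul, ← C_pow, ← C_mul, ← C_sub, ← C_sub, ← C_sub,
    ← map_pow, ← map_mul, ← map_mul, ← map_pow, ← map_mul, ← map_sub, ← map_sub, ← map_sub]
  congr 2
  have h5 : V₀.form.eval c = V₀.Q.eval c ^ 2 - c * V₀.U.eval c * V₀.U'.eval c -
      c * (c - 4) * V₀.R.eval c ^ 2 := by
    simp only [V4.form, eval_sub, eval_mul, eval_pow, eval_X]
    rw [show (4 : k[X]) = C 4 from (map_ofNat C 4).symm, eval_C]
  rw [h5]

private lemma E1_eval46 {A : Type*} [CommRing A] [Algebra k A] (hd : V₀.Deg n) (c : k)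
    (x : Ix46 n W.N → A) :
    (E1_46 D T V₀ c x).eval 0 = algebraMap k A (V₀.form.eval c - ∏ i, (G46 D c).eval (T i)) := by
  obtain ⟨h1, h2, h3, h4⟩ := hd
  unfold E1_46
  rw [eval_sub, eval_sub, eval_sub, eval_pow, eval_mul, eval_mul, eval_mul, eval_pow, eval_C,
    eval_C, ev46_eval h3, ev46_eval h1, ev46_eval h2, ev46_eval h4, nm_zero,
    ← map_pow, ← map_mul, ← map_mul, ← map_pow, ← map_mul, ← map_sub, ← map_sub, ← map_sub]
  congr 1
  have h5 : V₀.form.eval c = V₀.Q.eval c ^ 2 - c * V₀.U.eval c * V₀.U'.eval c -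
      c * (c - 4) * V₀.R.eval c ^ 2 := by
    simp only [V4.form, eval_sub, eval_mul, eval_pow, eval_X]
    rw [show (4 : k[X]) = C 4 from (map_ofNat C 4).symm, eval_C]
  rw [h5]

private lemma E2_zero46 {A : Type*} [CommRing A] [Algebra k A] (hd : V₀.Deg n) :
    E2_46 D T V₀ (fun _ => (0 : A)) = C (algebraMap k A (V₀.Q.eval 0 -
      ∏ i, D.be.eval (T i))) := by
  obtain ⟨h1, h2, h3, h4⟩ := hd
  unfold E2_46
  have eQ : ev46 V₀.Q (gQ46 (fun _ : Ix46 n W.N => (0 : A))) 0 = _ := ev46_zero h3 0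
  have eN : nm D.be T (gq46 (fun _ : Ix46 n W.N => (0 : A))) = _ := nm_const D.be T
  rw [eQ, eN, ← C_sub, ← map_sub]

private lemma E2_eval46 {A : Type*} [CommRing A] [Algebra k A] (hd : V₀.Deg n)
    (x : Ix46 n W.N → A) :
    (E2_46 D T V₀ x).eval 0 = algebraMap k A (V₀.Q.eval 0 - ∏ i, D.be.eval (T i)) := by
  obtain ⟨h1, h2, h3, h4⟩ := hd
  unfold E2_46
  rw [eval_sub, ev46_eval h3, nm_zero, ← map_sub]

private lemma E3_zero46 {A : Type*} [CommRing A] [Algebra k A] (hd : V₀.Deg n) :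
    E3_46 D T V₀ ξ η (fun _ => (0 : A)) = C (algebraMap k A (η ^ 2 - ξ ^ 3 +
      3 * ((∏ i, D.al.eval (T i)) * ξ) + 2 * V₀.Q.eval 4)) := by
  obtain ⟨h1, h2, h3, h4⟩ := hd
  unfold E3_46
  have eQ : ev46 V₀.Q (gQ46 (fun _ : Ix46 n W.N => (0 : A))) 4 = _ := ev46_zero h3 4
  have eN : nm D.al T (gq46 (fun _ : Ix46 n W.N => (0 : A))) = _ := nm_const D.al T
  have eO : pl46 (gO46 (fun _ : Ix46 n W.N => (0 : A))) = 0 := pl46_of_zero
  have eX : pl46 (gX46 (fun _ : Ix46 n W.N => (0 : A))) = 0 := pl46_of_zero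
  rw [eQ, eN, eO, eX, add_zero, add_zero, ← C_pow, ← C_pow, ← C_mul, ← C_mul, ← C_mul, ← C_sub,
    ← C_add, ← C_add, ← map_pow, ← map_pow, ← map_mul, ← map_mul, ← map_mul, ← map_sub, ← map_add,
    ← map_add]

private lemma E3_eval46 {A : Type*} [CommRing A] [Algebra k A] (hd : V₀.Deg n)
    (x : Ix46 n W.N → A) :
    (E3_46 D T V₀ ξ η x).eval 0 = algebraMap k A (η ^ 2 - ξ ^ 3 +
      3 * ((∏ i, D.al.eval (T i)) * ξ) + 2 * V₀.Q.eval 4) := by
  obtain ⟨h1, h2, h3, h4⟩ := hd
  unfold E3_46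
  rw [eval_add, eval_add, eval_sub, eval_pow, eval_pow, eval_add, eval_add, eval_mul, eval_mul,
    eval_mul, eval_add, eval_C, eval_C, eval_C, eval_C, pl46_eval, pl46_eval, ev46_eval h3,
    nm_zero, add_zero, add_zero, ← map_pow, ← map_pow, ← map_mul, ← map_mul, ← map_mul, ← map_sub,
    ← map_add, ← map_add]

end vals46

private lemma polyzero46 {p : k[X]} {d : ℕ} (hd : p.natDegree ≤ d) (h0 : p.eval 0 = 0)
    (h : ∀ m : Fin d, p.coeff ((m : ℕ) + 1) = 0) : p = 0 := by
  ext j
  rw [coeff_zero]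
  rcases Nat.eq_zero_or_pos j with hj | hj
  · subst hj
    rw [coeff_zero_eq_eval_zero, h0]
  · rcases Nat.lt_or_ge d j with hj' | hj'
    · exact coeff_eq_zero_of_natDegree_lt (lt_of_le_of_lt hd hj')
    · have := h ⟨j - 1, by omega⟩
      simp only at this
      rwa [Nat.sub_add_cancel hj] at this

/-- Contact data exist if `n ≥ N`. -/
theorem exists_con (D : Cor W) {n : ℕ} (h1 : 1 ≤ W.N) (hn : W.N ≤ n) {T : Fin n → k} {V₀ : V4 k}
    {ξ η : k} (hV : V₀.form = ∏ i, (C (D.b (T i) ^ 2) - C (D.d (T i) / 4) * X))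
    (hQ : V₀.Q.eval 0 = ∏ i, D.b (T i)) (hd : V₀.Deg n)
    (hη : η ^ 2 = ξ ^ 3 - 3 * (∏ i, D.a (T i)) * ξ - 2 * V₀.Q.eval 4) :
    Nonempty (Con D T V₀ ξ η) := by
  classical
  obtain ⟨d1, d2, d3, d4⟩ := hd
  have hd : V₀.Deg n := ⟨d1, d2, d3, d4⟩
  have ha : ∀ i, D.a (T i) = D.al.eval (T i) := fun i => by
    unfold Cor.a
    rw [coe_aeval_eq_eval]
  have hb : ∀ i, D.b (T i) = D.be.eval (T i) := fun i => by
    unfold Cor.b
    rw [coe_aeval_eq_eval]
  -- the constant terms
  have v1 : ∀ c : k, V₀.form.eval c - ∏ i, (G46 D c).eval (T i) = 0 := by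
    intro c
    rw [hV, eval_prod, sub_eq_zero]
    refine Finset.prod_congr rfl fun i _ => ?_
    unfold G46 Cor.d
    simp only [eval_sub, eval_C, eval_mul, eval_X, eval_pow]
    rw [ha, hb]
    ring
  have v2 : V₀.Q.eval 0 - ∏ i, D.be.eval (T i) = 0 := by
    rw [hQ, Finset.prod_congr rfl fun i _ => hb i, sub_self]
  have v3 : η ^ 2 - ξ ^ 3 + 3 * ((∏ i, D.al.eval (T i)) * ξ) + 2 * V₀.Q.eval 4 = 0 := by
    rw [hη, Finset.prod_congr rfl fun i _ => ha i]
    ring
  -- the equations
  obtain ⟨ϖ, hϖ⟩ : ∃ ϖ : Fin n → k, ϖ = fun j : Fin n => ((j : ℕ) : k) + 1 := ⟨_, rfl⟩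
  let J : Type := (Fin n × Fin (12 * W.N)) ⊕ (Fin (6 * W.N) ⊕ Fin (6 * W.N - 1))
  let R := MvPolynomial (Ix46 n W.N) k
  let X0 : Ix46 n W.N → R := MvPolynomial.X
  let F : J → R := Sum.elim (fun p => (E1_46 D T V₀ (ϖ p.1) X0).coeff ((p.2 : ℕ) + 1))
    (Sum.elim (fun m => (E2_46 D T V₀ X0).coeff ((m : ℕ) + 1))
      (fun m => (E3_46 D T V₀ ξ η X0).coeff ((m : ℕ) + 1)))
  have hX0 : ∀ x : Ix46 n W.N → k, (fun i => (MvPolynomial.aeval x : R →ₐ[k] k) (X0 i)) = x := by
    intro x
    funext i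
    exact MvPolynomial.aeval_X x i
  have hev : ∀ (x : Ix46 n W.N → k) (r : R), MvPolynomial.eval x r =
      (MvPolynomial.aeval x : R →ₐ[k] k) r := by
    intro x r
    exact (congrArg (fun g : R →+* k => g r) (MvPolynomial.coe_aeval_eq_eval x)).symm
  have s1 : ∀ (x : Ix46 n W.N → k) (c : k) (j : ℕ),
      MvPolynomial.eval x ((E1_46 D T V₀ c X0).coeff j) = (E1_46 D T V₀ c x).coeff j := by
    intro x c j
    have h := E1_map46 D T V₀ (MvPolynomial.aeval x : R →ₐ[k] k) c X0
    rw [hX0] at h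
    rw [hev, ← h, coeff_map]
    rfl
  have s2 : ∀ (x : Ix46 n W.N → k) (j : ℕ),
      MvPolynomial.eval x ((E2_46 D T V₀ X0).coeff j) = (E2_46 D T V₀ x).coeff j := by
    intro x j
    have h := E2_map46 D T V₀ (MvPolynomial.aeval x : R →ₐ[k] k) X0
    rw [hX0] at h
    rw [hev, ← h, coeff_map]
    rfl
  have s3 : ∀ (x : Ix46 n W.N → k) (j : ℕ),
      MvPolynomial.eval x ((E3_46 D T V₀ ξ η X0).coeff j) = (E3_46 D T V₀ ξ η x).coeff j := by
    intro x j
    have h := E3_map46 D T V₀ ξ η (MvPolynomial.aeval x : R →ₐ[k] k) X0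
    rw [hX0] at h
    rw [hev, ← h, coeff_map]
    rfl
  let eJ : Fin (Fintype.card J) ≃ J := (Fintype.equivFin J).symm
  have hcard : Fintype.card J < Nat.card (Ix46 n W.N) := by
    rw [card46]
    simp only [J, Fintype.card_sum, Fintype.card_prod, Fintype.card_fin]
    have h2 : n * (12 * W.N) = (2 * n) * (6 * W.N) := by ring
    have h3 : (2 * n + 1) * (6 * W.N) = (2 * n) * (6 * W.N) + 6 * W.N := by ring
    rw [h2, h3]
    omega
  obtain ⟨x, hx0, hx⟩ := Helper71.SE.exists_common_zero (fun j => F (eJ j)) (by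
    intro j
    have key : ∀ j : J, MvPolynomial.eval 0 (F j) = 0 := by
      intro j
      rcases j with ⟨p, m⟩ | m | m
      · change MvPolynomial.eval 0 ((E1_46 D T V₀ (ϖ p) X0).coeff ((m : ℕ) + 1)) = 0
        rw [s1]
        have := E1_zero46 (A := k) D T V₀ hd (ϖ p)
        rw [show (0 : Ix46 n W.N → k) = fun _ => (0 : k) from rfl, this, coeff_C,
          if_neg (Nat.succ_ne_zero _)]
      · change MvPolynomial.eval 0 ((E2_46 D T V₀ X0).coeff ((m : ℕ) + 1)) = 0
        rw [s2]
        have := E2_zero46 (A := k) D T V₀ hd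
        rw [show (0 : Ix46 n W.N → k) = fun _ => (0 : k) from rfl, this, coeff_C,
          if_neg (Nat.succ_ne_zero _)]
      · change MvPolynomial.eval 0 ((E3_46 D T V₀ ξ η X0).coeff ((m : ℕ) + 1)) = 0
        rw [s3]
        have := E3_zero46 (A := k) D T V₀ ξ η hd
        rw [show (0 : Ix46 n W.N → k) = fun _ => (0 : k) from rfl, this, coeff_C,
          if_neg (Nat.succ_ne_zero _)]
    exact key (eJ j)) hcard
  have hF : ∀ j : J, MvPolynomial.eval x (F j) = 0 := by
    intro j
    have := hx (eJ.symm j)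
    simpa using this
  have z1 : ∀ j : Fin n, E1_46 D T V₀ (ϖ j) x = 0 := by
    intro j
    refine polyzero46 (E1_degree46 D T V₀ (ϖ j) x) ?_ ?_
    · rw [E1_eval46 D T V₀ hd, v1, map_zero]
    · intro m
      have := hF (Sum.inl (j, m))
      change MvPolynomial.eval x ((E1_46 D T V₀ (ϖ j) X0).coeff ((m : ℕ) + 1)) = 0 at this
      rwa [s1] at this
  have z2 : E2_46 D T V₀ x = 0 := by
    refine polyzero46 (E2_degree46 D T V₀ x) ?_ ?_
    · rw [E2_eval46 D T V₀ hd, v2, map_zero]
    · intro m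
      have := hF (Sum.inr (Sum.inl m))
      change MvPolynomial.eval x ((E2_46 D T V₀ X0).coeff ((m : ℕ) + 1)) = 0 at this
      rwa [s2] at this
  obtain ⟨c, hc⟩ : ∃ c : k, E3_46 D T V₀ ξ η x = C c * X ^ (6 * W.N) := by
    refine ⟨(E3_46 D T V₀ ξ η x).coeff (6 * W.N), ?_⟩
    ext j
    rw [coeff_C_mul_X_pow]
    split_ifs with hj
    · rw [hj]
    rcases Nat.lt_or_ge (6 * W.N) j with hj' | hj'
    · exact coeff_eq_zero_of_natDegree_lt (lt_of_le_of_lt (E3_degree46 D T V₀ ξ η x) hj')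
    rcases Nat.eq_zero_or_pos j with hj0 | hj0
    · subst hj0
      rw [coeff_zero_eq_eval_zero, E3_eval46 D T V₀ ξ η hd, v3, map_zero]
    · have := hF (Sum.inr (Sum.inr ⟨j - 1, by omega⟩))
      change MvPolynomial.eval x ((E3_46 D T V₀ ξ η X0).coeff (j - 1 + 1)) = 0 at this
      rw [s3, Nat.sub_add_cancel hj0] at this
      exact this
  -- the values over a field
  have hqe : (∑ i : Fin n, C (x (Sum.inl i)) * X ^ (i : ℕ) : k[X]) =
      ∑ i : Fin n, C (gq46 x i) * X ^ (i : ℕ) := rfl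
  have hQ0 : ∀ (K : Type u) [Field K] [Algebra k K] (s : K) (t : Fin n → K),
      Pen T (∑ i : Fin n, C (x (Sum.inl i)) * X ^ (i : ℕ)) s t →
      ((mk46 V₀.Q (gQ46 x)).map (aeval s : k[X] →ₐ[k] K).toRingHom).eval 0 =
        ∏ i, D.b (t i) := by
    intro K _ _ s t hp
    have h2 := mk46_ev V₀.Q (gQ46 x) s (0 : k)
    rw [map_zero] at h2
    rw [h2]
    have h3 := sub_eq_zero.1 z2
    rw [h3]
    exact nm_val D.be T (gq46 x) hp
  have hfour : ∀ (K : Type u) [Field K] [Algebra k K] (s : K),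
      ((mk46 V₀.Q (gQ46 x)).map (aeval s : k[X] →ₐ[k] K).toRingHom).eval 4 =
        aeval s (ev46 V₀.Q (gQ46 x) 4) := by
    intro K _ _ s
    have h2 := mk46_ev V₀.Q (gQ46 x) s (4 : k)
    rwa [map_ofNat] at h2
  refine ⟨{
    q := ∑ i : Fin n, C (x (Sum.inl i)) * X ^ (i : ℕ)
    V := ⟨mk46 V₀.U (gU46 x), mk46 V₀.U' (gV46 x), mk46 V₀.Q (gQ46 x), mk46 V₀.R (gR46 x)⟩
    Xp := C ξ + pl46 (gX46 x)
    Op := C η + pl46 (gO46 x)
    c := c
    hq := ?_
    hV := ?_
    hXp := ?_
    hOp := ?_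
    dOp := ?_
    ne := ?_
    dg := ?_
    form := ?_
    Q0 := ?_
    eqn := ?_ }⟩
  · exact degree_sum_fin_lt _
  · unfold V4.map
    simp only [mk46_map0 d1, mk46_map0 d2, mk46_map0 d3, mk46_map0 d4]
  · rw [eval_add, eval_C, pl46_eval, add_zero]
  · rw [eval_add, eval_C, pl46_eval, add_zero]
  · exact (natDegree_add_le _ _).trans (max_le (by rw [natDegree_C]; omega) (pl46_degree _))
  · by_contra hcon
    push Not at hcon
    obtain ⟨n1, n2, n3, n4⟩ := hcon
    have n3' := pl46_zero _ (add_eq_left.mp n3)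
    have n4' := pl46_zero _ (add_eq_left.mp n4)
    have nU : mk46 V₀.U (gU46 x) = V₀.U.map C := congrArg V4.U n2
    have nV : mk46 V₀.U' (gV46 x) = V₀.U'.map C := congrArg V4.U' n2
    have nQ : mk46 V₀.Q (gQ46 x) = V₀.Q.map C := congrArg V4.Q n2
    have nR : mk46 V₀.R (gR46 x) = V₀.R.map C := congrArg V4.R n2
    apply hx0
    funext i
    rcases i with i | ⟨i | i | i | i, m⟩ | i | i
    · have h2 := congrArg (fun P => coeff P (i : ℕ)) n1
      simp only [coeff_zero] at h2
      rw [finsetSum_coeff, Finset.sum_eq_single i] at h2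
      · simpa using h2
      · intro i' _ hij
        rw [coeff_C_mul, coeff_X_pow, if_neg, mul_zero]
        intro h
        exact hij (Fin.ext h.symm)
      · intro h
        exact absurd (Finset.mem_univ _) h
    · exact mk46_inj nU i m
    · exact mk46_inj nV i m
    · exact mk46_inj nQ i m
    · exact mk46_inj nR i m
    · exact n3' i
    · exact n4' i
  · exact ⟨mk46_coeff' _ _, mk46_coeff' _ _, mk46_coeff' _ _, mk46_coeff' _ _⟩
  · intro K _ _ s t hp
    have hcz : CharZero K := charZero_of_injective_algebraMap (algebraMap k K).injective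
    have hdg : V4.Deg n (V4.ev s (⟨mk46 V₀.U (gU46 x), mk46 V₀.U' (gV46 x), mk46 V₀.Q (gQ46 x),
        mk46 V₀.R (gR46 x)⟩ : V4 k[X])) :=
      dg_map (aeval s : k[X] →ₐ[k] K).toRingHom
        ⟨mk46_coeff' _ _, mk46_coeff' _ _, mk46_coeff' _ _, mk46_coeff' _ _⟩
    set V := V4.ev s (⟨mk46 V₀.U (gU46 x), mk46 V₀.U' (gV46 x), mk46 V₀.Q (gQ46 x),
        mk46 V₀.R (gR46 x)⟩ : V4 k[X]) with hVdef
    obtain ⟨e1, e2, e3, e4⟩ := hdg
    have f3 : V.Q.natDegree ≤ n / 2 :=
      natDegree_le_iff_coeff_eq_zero.2 fun j hj => e3 j (by omega)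
    have f1 : V.U.natDegree ≤ (n + 1) / 2 - 1 :=
      natDegree_le_iff_coeff_eq_zero.2 fun j hj => e1 j (by omega)
    have f2 : V.U'.natDegree ≤ (n + 1) / 2 - 1 :=
      natDegree_le_iff_coeff_eq_zero.2 fun j hj => e2 j (by omega)
    have dl : V.form.natDegree ≤ n := by
      unfold V4.form
      refine (natDegree_sub_le _ _).trans (max_le ?_ ?_)
      · refine (natDegree_sub_le _ _).trans (max_le (natDegree_pow_le.trans (by omega)) ?_)
        refine natDegree_mul_le.trans ?_
        have f4 : (X * V.U).natDegree ≤ 1 + V.U.natDegree :=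
          natDegree_mul_le.trans (Nat.add_le_add_right natDegree_X_le _)
        omega
      · rcases Nat.eq_zero_or_pos (n / 2) with hz | hz
        · have f5 : V.R = 0 := by
            ext j
            rw [coeff_zero]
            exact e4 j (by omega)
          rw [f5, zero_pow (by norm_num), mul_zero, natDegree_zero]
          exact Nat.zero_le _
        · have f4 : V.R.natDegree ≤ n / 2 - 1 :=
            natDegree_le_iff_coeff_eq_zero.2 fun j hj => e4 j (by omega)
          have f6 : (X * (X - 4) : K[X]).natDegree ≤ 2 := by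
            refine natDegree_mul_le.trans ?_
            have f7 : (X - 4 : K[X]).natDegree ≤ 1 := by
              rw [show (4 : K[X]) = C 4 from (map_ofNat C 4).symm]
              exact natDegree_X_sub_C_le _
            have f8 : (X : K[X]).natDegree ≤ 1 := natDegree_X_le
            omega
          refine natDegree_mul_le.trans ?_
          have f9 : (V.R ^ 2).natDegree ≤ 2 * (n / 2 - 1) := natDegree_pow_le.trans (by omega)
          omega
    have dr : (∏ i, (C (D.b (t i) ^ 2) - C (D.d (t i) / 4) * X)).natDegree ≤ n := by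
      refine (natDegree_prod_le _ _).trans ?_
      have f4 : ∀ i ∈ (Finset.univ : Finset (Fin n)),
          (C (D.b (t i) ^ 2) - C (D.d (t i) / 4) * X).natDegree ≤ 1 := by
        intro i _
        refine (natDegree_sub_le _ _).trans (max_le (by rw [natDegree_C]; exact Nat.zero_le _) ?_)
        exact (natDegree_C_mul_le _ _).trans natDegree_X_le
      refine (Finset.sum_le_sum f4).trans ?_
      rw [Finset.sum_const, Finset.card_univ, Fintype.card_fin, smul_eq_mul, mul_one]
    have hinj : Function.Injective ϖ := by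
      intro i j hij
      rw [hϖ] at hij
      simp only [add_left_inj, Nat.cast_inj] at hij
      exact Fin.ext hij
    have hne : ∀ j, ϖ j ≠ 0 := by
      intro j
      rw [hϖ]
      exact Nat.cast_add_one_ne_zero _
    rw [← sub_eq_zero]
    apply eq_zero_of_natDegree_lt_card_of_eval_eq_zero' _
      (insert 0 (Finset.univ.image fun j => algebraMap k K (ϖ j)))
    · intro z hz
      rw [Finset.mem_insert, Finset.mem_image] at hz
      rcases hz with rfl | ⟨j, -, rfl⟩
      · rw [eval_sub, sub_eq_zero, eval_prod]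
        have g1 : V.form.eval 0 = V.Q.eval 0 ^ 2 := by
          simp [V4.form]
        have g2 : V.Q.eval 0 = ∏ i, D.b (t i) := hQ0 K s t hp
        rw [g1, g2, ← Finset.prod_pow]
        refine Finset.prod_congr rfl fun i _ => ?_
        simp
      · rw [eval_sub, sub_eq_zero, eval_prod]
        have g1 : V.form.eval (algebraMap k K (ϖ j)) =
            V.Q.eval (algebraMap k K (ϖ j)) ^ 2 - algebraMap k K (ϖ j) *
              V.U.eval (algebraMap k K (ϖ j)) * V.U'.eval (algebraMap k K (ϖ j)) -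
            algebraMap k K (ϖ j) * (algebraMap k K (ϖ j) - 4) *
              V.R.eval (algebraMap k K (ϖ j)) ^ 2 := by
          simp only [V4.form, eval_sub, eval_mul, eval_pow, eval_X]
          rw [show (4 : K[X]) = C 4 from (map_ofNat C 4).symm, eval_C]
        have g2 : V.Q.eval (algebraMap k K (ϖ j)) = aeval s (ev46 V₀.Q (gQ46 x) (ϖ j)) :=
          mk46_ev _ _ _ _
        have g3 : V.U.eval (algebraMap k K (ϖ j)) = aeval s (ev46 V₀.U (gU46 x) (ϖ j)) :=
          mk46_ev _ _ _ _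
        have g4 : V.U'.eval (algebraMap k K (ϖ j)) = aeval s (ev46 V₀.U' (gV46 x) (ϖ j)) :=
          mk46_ev _ _ _ _
        have g5 : V.R.eval (algebraMap k K (ϖ j)) = aeval s (ev46 V₀.R (gR46 x) (ϖ j)) :=
          mk46_ev _ _ _ _
        have g6 : aeval s (nm (G46 D (ϖ j)) T (gq46 x)) = ∏ i, aeval (t i) (G46 D (ϖ j)) :=
          nm_val (G46 D (ϖ j)) T (gq46 x) hp
        have g7 : ∏ i, aeval (t i) (G46 D (ϖ j)) =
            ∏ i, (C (D.b (t i) ^ 2) - C (D.d (t i) / 4) * X).eval (algebraMap k K (ϖ j)) := by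
          refine Finset.prod_congr rfl fun i _ => ?_
          unfold G46 Cor.d Cor.a Cor.b
          simp only [map_sub, map_mul, map_pow, aeval_C, map_div₀, map_ofNat, eval_sub, eval_C,
            eval_mul, eval_X, eval_pow]
          ring
        have g8 := congrArg (aeval s) (z1 j)
        unfold E1_46 at g8
        simp only [map_sub, map_mul, map_pow, aeval_C, Algebra.algebraMap_self,
          RingHom.id_apply, map_ofNat, map_zero] at g8
        rw [g6] at g8
        rw [g1, g2, g3, g4, g5, ← g7]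
        linear_combination g8
    · rw [Finset.card_insert_of_notMem, Finset.card_image_of_injective, Finset.card_univ,
        Fintype.card_fin]
      · exact Nat.lt_succ_of_le ((natDegree_sub_le _ _).trans (max_le dl dr))
      · exact (algebraMap k K).injective.comp hinj
      · rw [Finset.mem_image]
        rintro ⟨j, -, hj⟩
        exact hne j ((map_eq_zero _).1 hj)
  · exact hQ0
  · intro K _ _ s t hp
    change aeval s (C η + pl46 (gO46 x)) ^ 2 = aeval s (C ξ + pl46 (gX46 x)) ^ 3 -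
      3 * (∏ i, D.a (t i)) * aeval s (C ξ + pl46 (gX46 x)) -
      2 * ((mk46 V₀.Q (gQ46 x)).map (aeval s : k[X] →ₐ[k] K).toRingHom).eval 4 +
      algebraMap k K c * s ^ (6 * W.N)
    rw [hfour]
    have h2 := congrArg (aeval s) hc
    unfold E3_46 at h2
    simp only [map_add, map_sub, map_mul, map_pow, aeval_C, aeval_X, Algebra.algebraMap_self,
      RingHom.id_apply, map_ofNat] at h2
    have h3 : aeval s (nm D.al T (gq46 x)) = ∏ i, D.a (t i) := nm_val D.al T (gq46 x) hp
    rw [h3] at h2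
    simp only [map_add, aeval_C]
    linear_combination h2

end contact

end Pool.Agent.Helper83.VN
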