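import Mathlib
import Pool.Agent.Helper83.VN.F1b

/-!
# Block VN-INF: the values over `s = ∞`

Suppose that one of the functions is not zero at `w`, `s ∉ w.ring`; consider the corresponding
chain `e` (`F.d` or `F.d'`) and sixth roots `v`. All `t i` are regular (`kf_base`). The coefficients
of the pencil are `algebraMap (..) + s * q.coeff m`, so `s * q.coeff m ∈ w.ring` for all `m`, hence
`C.q = 0`; so the `t i` are the `algebraMap k K (T (π i))` (`exists_perm_of_prod`). By `kf_pole` the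
`v i` are regular and their values are not zero. `z + b + d / (4 z) = v ^ 6` with `b`, `d ≠ 0` constant:
`z` is regular with nonzero value (`d ≠ 0` because the edges are fine: `s t = (b ^ 2 - κ ^ 2) / 4`);
`(z + s) (z + t) = z v ^ 6` with regular factors, so `z + s`, `z + t` have nonzero values. The `κ i`
are constant up to ... (their squares are constants). So all coefficients of `vec e = V.tor x` are
regular. Hence: `Q`, `R` of `C.V` have constant coefficients (`s ∉ w.ring` and `aeval s p ∈ w.ring`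
imply that `p` is constant); `U_i U'_j` is regular, so constant for all `i, j`, and
`C.V.U.eval 4`, `C.V.U'.eval 4` are not zero (value at `s = 0`), so all `U_i`, `U'_j` are constant.
`∏ v i` is `ρ / μ` or `μ`, and `ρ ^ 2 = A` is a nonzero constant, so `μ` is regular with nonzero value
and `Xp` is constant; `Op ^ 2` is constant by `C.eqn` (`C.c = 0`), so `Op` is constant. This
contradicts `C.ne` (use `C.hV`, `C.hXp`, `C.hOp`).
-/

set_option linter.unusedSectionVars false

namespace Pool.Agent.Helper83.VN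

open VC VF Function Polynomial
open Pool.Agent.Helper51.EW Pool.Agent.Helper51.VN

universe u

variable {k : Type u} [Field k] [IsAlgClosed k] [CharZero k] {W : Wei k} {D : Cor W} {n : ℕ}
  {T : Fin n → k} {V₀ : V4 k} {ξ η : k} {C : Con D T V₀ ξ η} {c : List (Ed (Fin n) k)} {μ : k}

/-- A polynomial in `s` which is regular at a pole of `s` is constant. -/
lemma const_of_mem {K : Type u} [Field K] [Algebra k K] {w : Place k K} {s : K} (hs : s ∉ w.ring)
    {p : k[X]} (hp : aeval s p ∈ w.ring) : p = Polynomial.C (p.coeff 0) := by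
  apply eq_C_of_natDegree_eq_zero
  by_contra hdeg
  have hs0 : s ≠ 0 := by
    rintro rfl
    exact hs w.ring.zero_mem
  have hu : s⁻¹ ∈ w.ring.nonunits := by
    rw [ValuationSubring.mem_nonunits_iff_or]
    right
    rwa [inv_inv]
  have hres : IsRes w s⁻¹ 0 := isRes_zero_iff.2 hu
  let _ : Invertible s := invertibleOfNonzero hs0
  have h1 := eval₂_reverse_mul_pow (algebraMap k K) s p
  have h2 : aeval s⁻¹ p.reverse = aeval s p * s⁻¹ ^ p.natDegree := by
    have h3 : aeval s⁻¹ p.reverse * s ^ p.natDegree = aeval s p := by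
      rw [aeval_def, aeval_def, ← invOf_eq_inv s]
      exact h1
    rw [← h3, inv_pow, mul_assoc, mul_inv_cancel₀ (pow_ne_zero _ hs0), mul_one]
  have h4 : aeval s⁻¹ p.reverse ∈ w.ring.nonunits := by
    rw [h2]
    obtain ⟨m, hm⟩ := Nat.exists_eq_succ_of_ne_zero hdeg
    rw [hm, pow_succ, ← mul_assoc]
    exact nonunits_mul (w.ring.mul_mem _ _ hp (pow_mem (nonunits_le hu) m)) hu
  have h5 : p.reverse.eval 0 = 0 := (hres.poly (p := p.reverse)).unique (isRes_zero_iff.2 h4)
  rw [← coeff_zero_eq_eval_zero, coeff_zero_reverse, leadingCoeff_eq_zero] at h5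
  rw [h5] at hdeg
  exact hdeg natDegree_zero

/-! ### Units and regular polynomials -/

private def Un86 {K : Type u} [Field K] [Algebra k K] (w : Place k K) (x : K) : Prop :=
  ∃ c : k, IsRes w x c ∧ c ≠ 0

private lemma Un86.mem {K : Type u} [Field K] [Algebra k K] {w : Place k K} {x : K}
    (h : Un86 w x) : x ∈ w.ring := by
  obtain ⟨c, hc, -⟩ := h
  exact hc.mem

private lemma Un86.inv_mem {K : Type u} [Field K] [Algebra k K] {w : Place k K} {x : K}
    (h : Un86 w x) : x⁻¹ ∈ w.ring := by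
  obtain ⟨c, hc, h0⟩ := h
  exact (hc.inv_mem h0).2

private def Cr86 {K : Type u} [Field K] (R : ValuationSubring K) (p : K[X]) : Prop :=
  ∀ m, p.coeff m ∈ R

section cr

variable {K : Type u} [Field K] {R : ValuationSubring K} {p q : K[X]}

private lemma cr_add86 (hp : Cr86 R p) (hq : Cr86 R q) : Cr86 R (p + q) := fun m => by
  rw [coeff_add]
  exact R.add_mem _ _ (hp m) (hq m)

private lemma cr_sub86 (hp : Cr86 R p) (hq : Cr86 R q) : Cr86 R (p - q) := fun m => by
  rw [coeff_sub]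
  exact sub_mem (hp m) (hq m)

private lemma cr_mul86 (hp : Cr86 R p) (hq : Cr86 R q) : Cr86 R (p * q) := fun m => by
  rw [coeff_mul]
  exact sum_mem fun x _ => R.mul_mem _ _ (hp _) (hq _)

private lemma cr_C86 {c : K} (hc : c ∈ R) : Cr86 R (Polynomial.C c) := fun m => by
  rw [coeff_C]
  split_ifs
  · exact hc
  · exact R.zero_mem

private lemma cr_X86 : Cr86 R (X : K[X]) := fun m => by
  rw [coeff_X]
  split_ifs
  · exact R.one_mem
  · exact R.zero_mem

private lemma cr_one86 : Cr86 R (1 : K[X]) := by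
  rw [← C_1]
  exact cr_C86 R.one_mem

private lemma cr_zero86 : Cr86 R (0 : K[X]) := fun m => by
  rw [coeff_zero]
  exact R.zero_mem

private lemma cr_prod86 {ι : Type*} (s : Finset ι) {f : ι → K[X]} (h : ∀ i ∈ s, Cr86 R (f i)) :
    Cr86 R (∏ i ∈ s, f i) := by
  classical
  induction s using Finset.induction_on with
  | empty => simpa using cr_one86
  | insert a s ha ih =>
    rw [Finset.prod_insert ha]
    exact cr_mul86 (h a (Finset.mem_insert_self _ _))
      (ih fun i hi => h i (Finset.mem_insert_of_mem hi))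

private lemma cr_eval86 (hp : Cr86 R p) {x : K} (hx : x ∈ R) : p.eval x ∈ R := by
  rw [eval_eq_sum_range]
  exact sum_mem fun i _ => R.mul_mem _ _ (hp i) (pow_mem hx i)

end cr

private lemma four_mem86 {K : Type u} [Field K] {R : ValuationSubring K} : (4 : K) ∈ R := by
  have h : (4 : K) = 1 + 1 + 1 + 1 := by norm_num
  rw [h]
  exact R.add_mem _ _ (R.add_mem _ _ (R.add_mem _ _ R.one_mem R.one_mem) R.one_mem) R.one_mem

private lemma cr_four86 {K : Type u} [Field K] {R : ValuationSubring K} : Cr86 R (4 : K[X]) := by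
  have h : (4 : K[X]) = Polynomial.C 4 := (map_ofNat Polynomial.C 4).symm
  rw [h]
  exact cr_C86 four_mem86

private lemma half_mem86 {K : Type u} [Field K] [Algebra k K] (w : Place k K) :
    (2⁻¹ : K) ∈ w.ring := by
  have h : (2⁻¹ : K) = algebraMap k K 2⁻¹ := by
    rw [map_inv₀, map_ofNat]
  rw [h]
  exact w.algebraMap_mem _

/-- The four-vector of a chain with regular coefficients. -/
private lemma vec_cr86 {K : Type u} [Field K] [Algebra k K] (w : Place k K) {ι : Type*}
    (e : List (Ed ι K)) (h : ∀ f ∈ e, Un86 w f.z ∧ Un86 w (f.z + f.s) ∧ Un86 w (f.z + f.t) ∧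
      f.b ∈ w.ring ∧ f.κ ∈ w.ring) :
    Cr86 w.ring (vec e).U ∧ Cr86 w.ring (vec e).U' ∧ Cr86 w.ring (vec e).Q ∧
      Cr86 w.ring (vec e).R := by
  induction e with
  | nil => exact ⟨cr_zero86, cr_zero86, cr_one86, cr_zero86⟩
  | cons f e ih =>
    obtain ⟨hU, hU', hQ, hR⟩ := ih fun g hg => h g (List.mem_cons_of_mem _ hg)
    obtain ⟨hz, hzs, hzt, hb, hκ⟩ := h f List.mem_cons_self
    have h2 := half_mem86 w
    have hs : f.s ∈ w.ring := by
      unfold Ed.s
      rw [div_eq_mul_inv]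
      exact w.ring.mul_mem _ _ (w.ring.add_mem _ _ hb hκ) h2
    have ht : f.t ∈ w.ring := by
      unfold Ed.t
      rw [div_eq_mul_inv]
      exact w.ring.mul_mem _ _ (sub_mem hb hκ) h2
    have hX4 : Cr86 w.ring ((X - 4 : K[X]) * (vec e).R) := cr_mul86 (cr_sub86 cr_X86 cr_four86) hR
    have hdiv : ∀ {a c : K}, a ∈ w.ring → Un86 w c → Cr86 w.ring (Polynomial.C (a / c)) := by
      intro a c ha hc
      rw [div_eq_mul_inv]
      exact cr_C86 (w.ring.mul_mem _ _ ha hc.inv_mem)
    refine ⟨?_, ?_, ?_, ?_⟩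
    · show Cr86 w.ring (Polynomial.C ((f.z + f.s) / (f.z + f.t)) * (Polynomial.C f.z * (vec e).U +
        Polynomial.C (f.t ^ 2 / f.z) * (vec e).U' +
        Polynomial.C f.t * ((vec e).Q + (X - 4) * (vec e).R)))
      exact cr_mul86 (hdiv hzs.mem hzt) (cr_add86 (cr_add86 (cr_mul86 (cr_C86 hz.mem) hU)
        (cr_mul86 (hdiv (pow_mem ht 2) hz) hU')) (cr_mul86 (cr_C86 ht) (cr_add86 hQ hX4)))
    · show Cr86 w.ring (Polynomial.C ((f.z + f.t) / (f.z + f.s)) * (Polynomial.C f.z * (vec e).U +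
        Polynomial.C (f.s ^ 2 / f.z) * (vec e).U' +
        Polynomial.C f.s * ((vec e).Q - (X - 4) * (vec e).R)))
      exact cr_mul86 (hdiv hzt.mem hzs) (cr_add86 (cr_add86 (cr_mul86 (cr_C86 hz.mem) hU)
        (cr_mul86 (hdiv (pow_mem hs 2) hz) hU')) (cr_mul86 (cr_C86 hs) (cr_sub86 hQ hX4)))
    · show Cr86 w.ring (Polynomial.C f.b * (vec e).Q + Polynomial.C 2⁻¹ * X *
        (Polynomial.C f.z * (vec e).U + Polynomial.C (f.s * f.t / f.z) * (vec e).U'))
      exact cr_add86 (cr_mul86 (cr_C86 hb) hQ) (cr_mul86 (cr_mul86 (cr_C86 h2) cr_X86)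
        (cr_add86 (cr_mul86 (cr_C86 hz.mem) hU)
          (cr_mul86 (hdiv (w.ring.mul_mem _ _ hs ht) hz) hU')))
    · show Cr86 w.ring (Polynomial.C f.κ * (vec e).R + Polynomial.C 2⁻¹ *
        (Polynomial.C f.z * (vec e).U - Polynomial.C (f.s * f.t / f.z) * (vec e).U'))
      exact cr_add86 (cr_mul86 (cr_C86 hκ) hR) (cr_mul86 (cr_C86 h2)
        (cr_sub86 (cr_mul86 (cr_C86 hz.mem) hU)
          (cr_mul86 (hdiv (w.ring.mul_mem _ _ hs ht) hz) hU')))

/-- A polynomial whose coefficients are constant polynomials. -/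
private lemma eq_map86 {p : (k[X])[X]} (h : ∀ m, p.coeff m = Polynomial.C ((p.coeff m).coeff 0)) :
    p = (p.map (evalRingHom (0 : k))).map Polynomial.C := by
  ext1 m
  rw [coeff_map, coeff_map, coe_evalRingHom, ← coeff_zero_eq_eval_zero]
  exact h m

/-- The value of `z` for an edge. -/
private lemma edge_z86 {K : Type u} [Field K] [Algebra k K] {w : Place k K}
    {z v : K} {β δ ν : k} (hδ : δ ≠ 0)
    (hX : OnX (algebraMap k K β) (algebraMap k K δ) z v) (hK : IsFunctionField k K)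
    (hν : IsRes w v ν) : ∃ ζ, IsRes w z ζ ∧ ζ ≠ 0 := by
  have hC : CharZero K := charZero_of_injective_algebraMap (algebraMap k K).injective
  obtain ⟨hz, hv, he⟩ := hX
  have h6 : v ^ 6 ∈ w.ring := (hν.pow 6).mem
  have hq : (algebraMap k K (δ / 4)) = algebraMap k K δ / 4 := by
    rw [map_div₀, map_ofNat]
  have he' : v ^ 6 = z + algebraMap k K β + algebraMap k K (δ / 4) * z⁻¹ := by
    rw [he, hq]
    field_simp
  have hzm : z ∈ w.ring := by
    by_contra hzn
    have h1 : z⁻¹ ∈ w.ring := (w.ring.mem_or_inv_mem z).resolve_left hzn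
    apply hzn
    have h2 : z = v ^ 6 - algebraMap k K β - algebraMap k K (δ / 4) * z⁻¹ := by
      rw [he']
      ring
    rw [h2]
    exact sub_mem (sub_mem h6 (w.algebraMap_mem _)) (w.ring.mul_mem _ _ (w.algebraMap_mem _) h1)
  obtain ⟨ζ, hζ⟩ := exists_res hK hzm
  refine ⟨ζ, hζ, ?_⟩
  rintro rfl
  have h3 : algebraMap k K (δ / 4) * z⁻¹ ∈ w.ring := by
    have h4 : algebraMap k K (δ / 4) * z⁻¹ = v ^ 6 - z - algebraMap k K β := by
      rw [he']
      ring
    rw [h4]
    exact sub_mem (sub_mem h6 hzm) (w.algebraMap_mem _)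
  have h5 : algebraMap k K (δ / 4) ∈ w.ring.nonunits := by
    have h6 := nonunits_mul h3 (isRes_zero_iff.1 hζ)
    rwa [mul_assoc, inv_mul_cancel₀ hz, mul_one] at h6
  have h7 : δ / 4 = 0 := (isRes_const (v := w) (δ / 4)).unique (isRes_zero_iff.2 h5)
  apply hδ
  rw [div_eq_zero_iff] at h7
  exact h7.resolve_right (by norm_num)

/-- One of the functions. -/
theorem Fl1.inf_one (ha : ∀ i, D.a (T i) ≠ 0) (hz : V₀.z ≠ 0) (hz' : V₀.z' ≠ 0) {K : Type u}
    [Field K] [Algebra k K] (F : Fl1 C K) {ω : k} (hω : ω ^ 2 + ω + 1 = 0)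
    {Ψ : (W.surface.pow n).Pt → k} (h : Odd W n Ψ) (hc : C.c = 0) (w : Place k K)
    (hs : F.s ∉ w.ring) {e : List (Ed (Fin n) K)} (he : e.map Ed.lab = F.lab) (hf : FineC e)
    {x : K} (hx : x ≠ 0) (hv : vec e = F.V.tor x) {v : Fin n → K}
    (hX : ∀ i, OnX (D.b (F.t i)) (D.d (F.t i)) (zof e i) (v i))
    (hp : ∏ i, v i = F.ρ / F.μ ∨ ∏ i, v i = F.μ) :
    KF D ω Ψ F.hK F.t (zof e) v w = 0 := by
  classical
  by_contra hne
  have hK := F.hK
  have hCK : CharZero K := charZero_of_injective_algebraMap (algebraMap k K).injective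
  -- the roots are regular
  have htm : ∀ i, F.t i ∈ w.ring := by
    intro i
    by_contra hi
    exact hne (kf_base D ω hK hω h hX w hi)
  -- the pencil is constant
  have hq : C.q = 0 := by
    ext m
    rw [coeff_zero]
    by_contra hm
    have h1 := congrArg (fun p : K[X] => p.coeff m) F.pen
    simp only [coeff_add, coeff_C_mul, coeff_map] at h1
    have h2 : (∏ i, (X - Polynomial.C (F.t i))).coeff m ∈ w.ring :=
      cr_prod86 Finset.univ (fun i _ => cr_sub86 cr_X86 (cr_C86 (htm i))) m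
    have h3 : F.s * algebraMap k K (C.q.coeff m) ∈ w.ring := by
      have h4 : F.s * algebraMap k K (C.q.coeff m) =
          (∏ i, (X - Polynomial.C (F.t i))).coeff m -
            algebraMap k K ((∏ i, (X - Polynomial.C (T i))).coeff m) := by
        rw [h1]
        ring
      rw [h4]
      exact sub_mem h2 (w.algebraMap_mem _)
    apply hs
    have h5 := w.ring.mul_mem _ _ h3 (w.algebraMap_mem (C.q.coeff m)⁻¹)
    rw [mul_assoc, ← map_mul, mul_inv_cancel₀ hm, map_one, mul_one] at h5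
    exact h5
  have hperm : ∏ i, (X - Polynomial.C (F.t i)) =
      ∏ i, (X - Polynomial.C (algebraMap k K (T i))) := by
    have h1 := F.pen
    unfold Pen at h1
    rw [hq, Polynomial.map_zero, mul_zero, add_zero, Polynomial.map_prod] at h1
    rw [h1]
    exact Finset.prod_congr rfl fun i _ => by
      rw [Polynomial.map_sub, Polynomial.map_X, Polynomial.map_C]
  obtain ⟨π, hπ⟩ := exists_perm_of_prod hperm
  have htr : ∀ i, IsRes w (F.t i) (T (π i)) := by
    intro i
    rw [hπ i]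
    exact isRes_const _
  have hat : ∀ i, D.a (F.t i) = algebraMap k K (D.a (T (π i))) := fun i => by
    rw [hπ i, kf_a_const]
  have hbt : ∀ i, D.b (F.t i) = algebraMap k K (D.b (T (π i))) := fun i => by
    rw [hπ i, kf_b_const]
  have hdt : ∀ i, D.d (F.t i) = algebraMap k K (D.d (T (π i))) := fun i => by
    unfold Cor.d
    rw [hat, hbt, map_sub, map_pow, map_pow]
  -- the values of the `v i`
  have hvr : ∀ i, ∃ ν, IsRes w (v i) ν ∧ ν ≠ 0 := by
    intro i
    have h1 : v i ∈ w.ring := by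
      by_contra hi
      exact hne (kf_pole D ω hK hω h hX w (htr i) (ha _) (Or.inl hi))
    obtain ⟨ν, hν⟩ := exists_res hK h1
    refine ⟨ν, hν, ?_⟩
    rintro rfl
    exact hne (kf_pole D ω hK hω h hX w (htr i) (ha _) (Or.inr hν))
  choose ν hν hν0 using hvr
  -- the `κ i`
  have hκr : ∀ i, ∃ c, IsRes w (F.κ i) c ∧ c ^ 2 = D.a (T (π i)) ^ 3 := by
    intro i
    apply exists_res_of_pow hK two_ne_zero
    rw [F.hκ i, hat i]
    exact (isRes_const _).pow 3
  -- the edges
  have hnd : (e.map fun f => f.i).Nodup := by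
    have h1 : (e.map fun f => f.i) = (e.map Ed.lab).map Prod.fst := by
      rw [List.map_map]
      rfl
    have h2 : (F.lab.map Prod.fst) = List.ofFn (fun i : Fin n => i) := by
      unfold Fl1.lab
      rw [List.map_ofFn]
      rfl
    rw [h1, he, h2]
    exact List.nodup_ofFn.2 Function.injective_id
  have hedge : ∀ f ∈ e, Un86 w f.z ∧ Un86 w (f.z + f.s) ∧ Un86 w (f.z + f.t) ∧
      f.b ∈ w.ring ∧ f.κ ∈ w.ring := by
    intro f hfe
    have hfine := fine_mem hf hfe
    have h1 : f.lab ∈ F.lab := by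
      rw [← he]
      exact List.mem_map_of_mem hfe
    unfold Fl1.lab at h1
    rw [List.mem_ofFn] at h1
    obtain ⟨i, hi⟩ := h1
    have hi1 : i = f.i := congrArg Prod.fst hi
    have hi2 : D.b (F.t i) = f.b := congrArg (fun p => p.2.1) hi
    have hi3 : F.κ i = f.κ := congrArg (fun p => p.2.2) hi
    have hzf : zof e i = f.z := by
      rw [hi1]
      exact zof_mem hnd hfe
    have hXi := hX i
    rw [hzf] at hXi
    have hst : f.s * f.t = D.d (F.t i) / 4 := by
      unfold Ed.s Ed.t Cor.d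
      rw [← F.hκ i, hi2, hi3]
      ring
    have hδ : D.d (T (π i)) ≠ 0 := by
      intro h0
      rw [hdt i, h0, map_zero, zero_div] at hst
      exact mul_ne_zero hfine.s hfine.t hst
    have hXi' := hXi
    rw [hbt i, hdt i] at hXi'
    obtain ⟨ζ, hζ, hζ0⟩ := edge_z86 hδ hXi' hK (hν i)
    obtain ⟨c, hc1, -⟩ := hκr i
    have hbm : IsRes w f.b (D.b (T (π i))) := by
      rw [← hi2, hbt i]
      exact isRes_const _
    have hκm : IsRes w f.κ c := by
      rw [← hi3]
      exact hc1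
    have h2r : IsRes w (2⁻¹ : K) (2⁻¹ : k) := by
      have h : (2⁻¹ : K) = algebraMap k K 2⁻¹ := by
        rw [map_inv₀, map_ofNat]
      rw [h]
      exact isRes_const _
    have hsr : IsRes w f.s ((D.b (T (π i)) + c) * 2⁻¹) := by
      unfold Ed.s
      rw [div_eq_mul_inv]
      exact (hbm.add hκm).mul h2r
    have htr' : IsRes w f.t ((D.b (T (π i)) - c) * 2⁻¹) := by
      unfold Ed.t
      rw [div_eq_mul_inv]
      exact (hbm.sub hκm).mul h2r
    have hprod : (f.z + f.s) * (f.z + f.t) = f.z * v i ^ 6 := by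
      obtain ⟨g1, g2, g3⟩ := hXi
      rw [g3]
      have h4 : f.s + f.t = D.b (F.t i) := by
        rw [hi2]
        unfold Ed.s Ed.t
        ring
      have h5 : (f.z + f.s) * (f.z + f.t) = f.z ^ 2 + (f.s + f.t) * f.z + f.s * f.t := by ring
      rw [h5, h4, hst]
      field_simp
    have hr := (hζ.mul ((hν i).pow 6))
    rw [← hprod] at hr
    have hr' := ((hζ.add hsr).mul (hζ.add htr')).unique hr
    have hne0 : ζ * ν i ^ 6 ≠ 0 := mul_ne_zero hζ0 (pow_ne_zero _ (hν0 i))
    rw [← hr'] at hne0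
    exact ⟨⟨ζ, hζ, hζ0⟩, ⟨_, hζ.add hsr, left_ne_zero_of_mul hne0⟩,
      ⟨_, hζ.add htr', right_ne_zero_of_mul hne0⟩, hbm.mem, hκm.mem⟩
  obtain ⟨cU, cU', cQ, cR⟩ := vec_cr86 w e hedge
  rw [hv] at cU cU' cQ cR
  -- the coefficients of `C.V`
  have hFU : ∀ m, F.V.U.coeff m = aeval F.s (C.V.U.coeff m) := fun m => by
    show ((C.V.U.map (aeval F.s : k[X] →ₐ[k] K).toRingHom)).coeff m = _
    rw [coeff_map]
    rfl
  have hFU' : ∀ m, F.V.U'.coeff m = aeval F.s (C.V.U'.coeff m) := fun m => by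
    show ((C.V.U'.map (aeval F.s : k[X] →ₐ[k] K).toRingHom)).coeff m = _
    rw [coeff_map]
    rfl
  have hFQ : ∀ m, F.V.Q.coeff m = aeval F.s (C.V.Q.coeff m) := fun m => by
    show ((C.V.Q.map (aeval F.s : k[X] →ₐ[k] K).toRingHom)).coeff m = _
    rw [coeff_map]
    rfl
  have hFR : ∀ m, F.V.R.coeff m = aeval F.s (C.V.R.coeff m) := fun m => by
    show ((C.V.R.map (aeval F.s : k[X] →ₐ[k] K).toRingHom)).coeff m = _
    rw [coeff_map]
    rfl
  have hev : ∀ P : (k[X])[X], (P.map (aeval F.s : k[X] →ₐ[k] K).toRingHom).eval 4 =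
      aeval F.s (P.eval 4) := by
    intro P
    have h4 : ((aeval F.s : k[X] →ₐ[k] K).toRingHom) (4 : k[X]) = 4 := map_ofNat _ 4
    have h := eval_map_apply (aeval F.s : k[X] →ₐ[k] K).toRingHom (4 : k[X]) (p := P)
    rw [h4] at h
    exact h
  have hev0 : ∀ P : (k[X])[X], (P.map (evalRingHom (0 : k))).eval 4 = (P.eval 4).eval 0 := by
    intro P
    have h4 : (evalRingHom (0 : k)) (4 : k[X]) = 4 := map_ofNat _ 4
    have h := eval_map_apply (evalRingHom (0 : k)) (4 : k[X]) (p := P)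
    rw [h4] at h
    exact h
  have hQc : C.V.Q = (C.V.Q.map (evalRingHom (0 : k))).map Polynomial.C := by
    apply eq_map86
    intro m
    apply const_of_mem hs
    rw [← hFQ]
    exact cQ m
  have hRc : C.V.R = (C.V.R.map (evalRingHom (0 : k))).map Polynomial.C := by
    apply eq_map86
    intro m
    apply const_of_mem hs
    rw [← hFR]
    exact cR m
  have hB0 : C.V.U'.eval 4 ≠ 0 := by
    intro h0
    apply hz
    have h1 := congrArg (fun V : V4 k => V.U'.eval 4) C.hV
    have h2 : (C.V.U'.map (evalRingHom (0 : k))).eval 4 = V₀.U'.eval 4 := h1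
    rw [hev0, h0, eval_zero] at h2
    unfold V4.z
    rw [← h2, neg_zero]
  have hA0 : C.V.U.eval 4 ≠ 0 := by
    intro h0
    apply hz'
    have h1 := congrArg (fun V : V4 k => V.U.eval 4) C.hV
    have h2 : (C.V.U.map (evalRingHom (0 : k))).eval 4 = V₀.U.eval 4 := h1
    rw [hev0, h0, eval_zero] at h2
    unfold V4.z'
    rw [← h2, neg_zero]
  have hdeg0 : ∀ {P Q : k[X]}, Q ≠ 0 → aeval F.s (P * Q) ∈ w.ring →
      P = Polynomial.C (P.coeff 0) := by
    intro P Q hQ hm
    by_cases hP : P = 0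
    · rw [hP, coeff_zero, map_zero]
    · apply eq_C_of_natDegree_eq_zero
      have h1 := congrArg natDegree (const_of_mem hs hm)
      rw [natDegree_C, natDegree_mul hP hQ] at h1
      omega
  have hxx : x⁻¹ * x = 1 := inv_mul_cancel₀ hx
  have hUc : C.V.U = (C.V.U.map (evalRingHom (0 : k))).map Polynomial.C := by
    apply eq_map86
    intro m
    apply hdeg0 hB0
    have h1 : aeval F.s (C.V.U.coeff m * C.V.U'.eval 4) =
        ((F.V.tor x).U.coeff m) * ((F.V.tor x).U'.eval 4) := by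
      rw [map_mul, ← hFU, ← hev]
      show F.V.U.coeff m * F.V.U'.eval 4 =
        (Polynomial.C x⁻¹ * F.V.U).coeff m * (Polynomial.C x * F.V.U').eval 4
      rw [coeff_C_mul, eval_mul, eval_C]
      linear_combination (-(F.V.U.coeff m * F.V.U'.eval 4)) * hxx
    rw [h1]
    exact w.ring.mul_mem _ _ (cU m) (cr_eval86 cU' four_mem86)
  have hUc' : C.V.U' = (C.V.U'.map (evalRingHom (0 : k))).map Polynomial.C := by
    apply eq_map86
    intro m
    apply hdeg0 hA0
    have h1 : aeval F.s (C.V.U'.coeff m * C.V.U.eval 4) =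
        ((F.V.tor x).U'.coeff m) * ((F.V.tor x).U.eval 4) := by
      rw [map_mul, ← hFU', ← hev]
      show F.V.U'.coeff m * F.V.U.eval 4 =
        (Polynomial.C x * F.V.U').coeff m * (Polynomial.C x⁻¹ * F.V.U).eval 4
      rw [coeff_C_mul, eval_mul, eval_C]
      linear_combination (-(F.V.U'.coeff m * F.V.U.eval 4)) * hxx
    rw [h1]
    exact w.ring.mul_mem _ _ (cU' m) (cr_eval86 cU four_mem86)
  -- the total point
  obtain ⟨hA, hρ, -⟩ := F.A_ne ha
  have hAc : F.A = algebraMap k K (∏ i, D.a (T (π i))) := by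
    unfold Fl1.A
    rw [map_prod]
    exact Finset.prod_congr rfl fun i _ => hat i
  have hA0' : ∏ i, D.a (T (π i)) ≠ 0 := Finset.prod_ne_zero_iff.2 fun i _ => ha _
  obtain ⟨r, hr, hr2⟩ : ∃ r, IsRes w F.ρ r ∧ r ^ 2 = ∏ i, D.a (T (π i)) := by
    apply exists_res_of_pow hK two_ne_zero
    rw [hρ, hAc]
    exact isRes_const _
  have hr0 : r ≠ 0 := by
    rintro rfl
    apply hA0'
    rw [← hr2]
    ring
  have hρ0 : F.ρ ≠ 0 := hr.ne_zero hr0
  have hvp : IsRes w (∏ i, v i) (∏ i, ν i) := IsRes.prod' _ fun i _ => hν i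
  have hvp0 : ∏ i, ν i ≠ 0 := Finset.prod_ne_zero_iff.2 fun i _ => hν0 i
  obtain ⟨m, hm, hm0⟩ : ∃ m, IsRes w F.μ m ∧ m ≠ 0 := by
    rcases hp with hp | hp
    · have h1 : F.μ = F.ρ * (∏ i, v i)⁻¹ := by
        rw [hp, inv_div, mul_div_cancel₀ _ hρ0]
      refine ⟨r * (∏ i, ν i)⁻¹, ?_, mul_ne_zero hr0 (inv_ne_zero hvp0)⟩
      rw [h1]
      exact hr.mul (hvp.inv hK hvp0)
    · exact ⟨_, hp ▸ hvp, hvp0⟩
  have hXm : aeval F.s C.Xp ∈ w.ring := by
    rw [← F.hξ]
    have h1 : ∏ i, D.a (F.t i) = F.A := rfl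
    rw [h1, hAc, div_eq_mul_inv]
    exact w.ring.add_mem _ _ (hm.pow 2).mem
      (w.ring.mul_mem _ _ (w.algebraMap_mem _) ((hm.pow 2).inv hK (pow_ne_zero _ hm0)).mem)
  have hXc : C.Xp = Polynomial.C ξ := by
    have h1 := const_of_mem hs hXm
    rw [h1, coeff_zero_eq_eval_zero, C.hXp]
  have hOm : aeval F.s C.Op ∈ w.ring := by
    apply mem_of_pow two_ne_zero
    rw [C.eqn K F.s F.t F.pen, hc, map_zero, zero_mul, add_zero]
    have h1 : ∏ i, D.a (F.t i) = F.A := rfl
    rw [h1, hAc]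
    have h3 : (3 : K) ∈ w.ring := by
      have h : (3 : K) = 1 + 1 + 1 := by norm_num
      rw [h]
      exact w.ring.add_mem _ _ (w.ring.add_mem _ _ w.ring.one_mem w.ring.one_mem) w.ring.one_mem
    have h2 : (2 : K) ∈ w.ring := by
      have h : (2 : K) = 1 + 1 := by norm_num
      rw [h]
      exact w.ring.add_mem _ _ w.ring.one_mem w.ring.one_mem
    have h4 : (C.V.ev F.s).Q.eval 4 ∈ w.ring := cr_eval86 cQ four_mem86
    exact sub_mem (sub_mem (pow_mem hXm 3) (w.ring.mul_mem _ _ (w.ring.mul_mem _ _ h3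
      (w.algebraMap_mem _)) hXm)) (w.ring.mul_mem _ _ h2 h4)
  have hOc : C.Op = Polynomial.C η := by
    have h1 := const_of_mem hs hOm
    rw [h1, coeff_zero_eq_eval_zero, C.hOp]
  have hVc : C.V = V₀.map Polynomial.C := by
    have h5 : C.V = (C.V.map (evalRingHom (0 : k))).map Polynomial.C := by
      ext1
      · exact hUc
      · exact hUc'
      · exact hQc
      · exact hRc
    exact h5.trans (congrArg (fun V : V4 k => V.map Polynomial.C) C.hV)
  rcases C.ne with h1 | h1 | h1 | h1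
  · exact h1 hq
  · exact h1 hVc
  · exact h1 hXc
  · exact h1 hOc

end Pool.Agent.Helper83.VN
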