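import Mathlib
import Pool.Agent.Helper83.VN.Mv1
import Pool.Agent.Helper83.VN.Gnr
import Pool.Agent.Helper51.VN.AdjGf

/-!
# Block VN-MV2: the functional vanishes at general fibres

`ff_all`: choose `κ i` with `κ i ^ 2 = a (T i) ^ 3` and let `c = List.ofFn (i, b, κ, z)`. By
`good_line` the chain `c_τ` is good for almost all `τ`, and `ff_good` applies (`zof c_τ i = z i + τ`).
`ff_app` on the line with `z i + X`, `X ↦ 0`. The spectral values `Ed.w = b ^ 2 / (s t)
= 4 b ^ 2 / d` are different by `Gn.hj`.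

`ps_zero` is `psi_zero` with `fun_psT`.
-/

set_option linter.unusedSectionVars false

namespace Pool.Agent.Helper83.VN

open VC VF Function
open Pool.Agent.Helper51.EW Pool.Agent.Helper51.VN

universe u

variable {k : Type u} [Field k] [IsAlgClosed k] [CharZero k] {W : Wei k} {D : Cor W} {n : ℕ}
  {T : Fin n → k}

theorem ff_all {ω : k} (hω : ω ^ 2 + ω + 1 = 0) (h1 : 1 ≤ W.N) (hn : W.N ≤ n)
    {Ψ : (W.surface.pow n).Pt → k} (h : Odd W n Ψ) (hT : Gn D T) (z v : Fin n → k)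
    (hv : ∀ i, OnX (D.b (T i)) (D.d (T i)) (z i) (v i)) :
    FF ω (fun i => D.a (T i)) (fun i => D.d (T i)) (psT D Ψ T) z v = 0 := by
  classical
  choose κ hκ using fun i => IsAlgClosed.exists_pow_nat_eq (D.a (T i) ^ 3) (n := 2) two_pos
  obtain ⟨E, hE⟩ : ∃ E : Fin n → k → Ed (Fin n) k, E = fun i τ =>
    ⟨i, D.b (T i), κ i, z i + τ⟩ := ⟨_, rfl⟩
  have hκ0 : ∀ i, κ i ≠ 0 := by
    intro i h0
    apply pow_ne_zero 3 (hT.ha i)
    rw [← hκ i, h0]
    ring
  have hst : ∀ i τ, (E i τ).s * (E i τ).t = D.d (T i) / 4 := by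
    intro i τ
    rw [hE]
    unfold Ed.s Ed.t Cor.d
    change (D.b (T i) + κ i) / 2 * ((D.b (T i) - κ i) / 2) = _
    linear_combination (-1 / 4 : k) * hκ i
  have hd4 : ∀ i, D.d (T i) / 4 ≠ 0 := fun i =>
    div_ne_zero (hT.hd i) (by norm_num)
  obtain ⟨c, hc⟩ : ∃ c, c = List.ofFn fun i => E i 0 := ⟨_, rfl⟩
  have hb : ∀ e ∈ c, e.b ≠ 0 ∧ e.κ ≠ 0 ∧ e.s ≠ 0 ∧ e.t ≠ 0 := by
    intro e he
    rw [hc, List.mem_ofFn] at he
    obtain ⟨i, rfl⟩ := he
    have h2 := hst i 0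
    have h3 : (E i 0).s * (E i 0).t ≠ 0 := by rw [h2]; exact hd4 i
    refine ⟨?_, ?_, left_ne_zero_of_mul h3, right_ne_zero_of_mul h3⟩
    · rw [hE]; exact hT.hb i
    · rw [hE]; exact hκ0 i
  have hw : (c.map Ed.w).Nodup := by
    rw [hc, List.map_ofFn, List.nodup_ofFn]
    intro i j hij
    by_contra hne
    have h2 : (E i 0).w = (E j 0).w := hij
    unfold Ed.w at h2
    rw [hst, hst] at h2
    have h3 : (E i 0).b = D.b (T i) := by rw [hE]
    have h4 : (E j 0).b = D.b (T j) := by rw [hE]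
    rw [h3, h4, div_eq_div_iff (hd4 i) (hd4 j)] at h2
    exact hT.hj i j hne (by linear_combination 4 * h2)
  obtain ⟨B, hB, hB'⟩ := good_line c hb hw
  have hn0 : n ≠ 0 := by omega
  -- the chains of the line
  have hcτ : ∀ τ, (c.map fun e => (⟨e.i, e.b, e.κ, e.z + τ⟩ : Ed (Fin n) k)) =
      List.ofFn fun i => E i τ := by
    intro τ
    rw [hc, List.map_ofFn]
    congr 1
    funext i
    rw [hE]
    change (⟨i, D.b (T i), κ i, z i + 0 + τ⟩ : Ed (Fin n) k) = ⟨i, D.b (T i), κ i, z i + τ⟩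
    rw [add_zero]
  have hch : ∀ τ, IsChain (fun i => D.a (T i)) (fun i => D.b (T i)) (List.ofFn fun i => E i τ) := by
    intro τ
    have e1 : ((List.ofFn fun i => E i τ).map fun e => e.i) = List.ofFn fun i : Fin n => i := by
      rw [List.map_ofFn]
      congr 1
      funext i
      rw [hE]
      rfl
    refine ⟨?_, ?_, ?_, ?_⟩
    · rw [e1, List.nodup_ofFn]
      exact injective_id
    · intro i
      rw [e1, List.mem_ofFn]
      exact ⟨i, rfl⟩
    · intro e he
      rw [List.mem_ofFn] at he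
      obtain ⟨i, rfl⟩ := he
      rw [hE]
    · intro e he
      rw [List.mem_ofFn] at he
      obtain ⟨i, rfl⟩ := he
      rw [hE]
      exact hκ i
  have hzof : ∀ τ, zof (List.ofFn fun i => E i τ) = fun i => z i + τ := by
    intro τ
    funext i
    have h2 : E i τ ∈ List.ofFn fun i => E i τ := List.mem_ofFn.mpr ⟨i, rfl⟩
    have h3 := zof_mem (hch τ).nodup h2
    have h4 : (E i τ).i = i := by rw [hE]
    have h5 : (E i τ).z = z i + τ := by rw [hE]
    rw [h4, h5] at h3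
    exact h3
  -- the line
  have hK := ff_ratFunc (k := k)
  have htr : Transcendental k (RatFunc.X : RatFunc k) := transcendental_ratX
  obtain ⟨w₀, hw₀⟩ := exists_place hK htr
  have hfin := fin_pl hK htr hB
  refine ff_app hω (fun_psT D h T) hK (fun i => algebraMap k (RatFunc k) (z i) + RatFunc.X) w₀ z
    (fun i => ?_) hfin ?_ v hv
  · have := (isRes_const (v := w₀) (z i)).add (isRes_zero_iff.mpr hw₀)
    rwa [add_zero] at this
  · intro w hw ζ hζ v' hv'
    rw [Set.mem_ofPred_eq, not_or, not_not, not_exists] at hw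
    obtain ⟨hw1, hw2⟩ := hw
    obtain ⟨τ, hτ⟩ := exists_res hK hw1
    have hτB : τ ∉ B := fun h0 => hw2 τ ⟨h0, hτ⟩
    obtain ⟨hg, hzz⟩ := hB' τ hτB
    rw [hcτ] at hg hzz
    have hc0 : c ≠ [] := by
      rw [hc]
      intro h0
      rw [List.ofFn_eq_nil_iff] at h0
      exact hn0 h0
    obtain ⟨hz, hz'⟩ := hzz hc0
    have h2 : ζ = fun i => z i + τ := by
      funext i
      exact (hζ i).unique ((isRes_const (z i)).add hτ)
    have h3 := ff_good hω h1 hn h hT.ha (hch τ) hg hz hz' v' (by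
      intro i
      rw [hzof]
      have := hv' i
      rw [h2] at this
      exact this)
    rw [hzof, ← h2] at h3
    exact h3

theorem ps_zero (h1 : 1 ≤ W.N) (hn : W.N ≤ n) {Ψ : (W.surface.pow n).Pt → k} (h : Odd W n Ψ)
    (hT : Gn D T) (x y : Fin n → k) (hp : ∀ i, OnE (D.a (T i)) (D.b (T i)) (x i) (y i)) :
    Ψ (fun i => D.pt (T i) (x i) (y i)) = 0 := by
  obtain ⟨ω, hω⟩ : ∃ ω : k, ω ^ 2 + ω + 1 = 0 := by
    obtain ⟨s, hs⟩ := IsAlgClosed.exists_pow_nat_eq (-3 : k) (n := 2) two_pos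
    exact ⟨(-1 + s) / 2, by linear_combination (1 / 4 : k) * hs⟩
  exact psi_zero hω (fun_psT D h T) hT.hd hT.ha (fun z v hv => ff_all hω h1 hn h hT z v hv)
    (fun i => (x i, y i)) hp

end Pool.Agent.Helper83.VN
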